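import Pool.Agent.Work.MP_c04246_lc.G.Fi1
import Pool.Agent.Work.MP_c04246_lc.R.RTyp

/-!
MODULE Fi2 (size S-M). Random k-CNFs.

Proof. `typical` (R/RTyp.lean) gives `ρ`, `G`, `Expn (clF F) (n / ρ) 2`. Let `r = n / ρ`, `n ≤ 2 * ρ * r` for `n ≥ ρ`.
First statement. If `a = b + 1` this is `main_T_exp` (`e = 2`, `2 * ρ` for `ρ`) for `n ≥ ρ * (r0 + 1) + n0 + 1`. If `a = 0` apply `main_T_exp` with `a = 0` (so
`blk none b ≤ 0 ≤ 0 + 1`): `n ^ 2 ≤ C * (G ^ 1 * _ * _)` where `G = (inputs pi).card = 0`, as a `bin c b b'` in `subsL pi` has `blk none ≥ 1`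
(`blk_subs`); so `n ^ 2 ≤ 0`, impossible for `n ≥ 1`; anything follows.
-/

set_option autoImplicit false

namespace Pool.Agent.Work.MP_c04246_lc.R

open Finset Filter Topology

private theorem fi2_inputs {U : Type} {p : ℕ} {pi : List (Fml p U)}
    (h : ∀ b ∈ pi, Fml.blk none b = 0) : Fml.inputs pi = ∅ := by
  classical
  unfold Fml.inputs
  rw [Finset.filter_eq_empty_iff]
  rintro x - ⟨c, b, b', hb, -⟩
  unfold Fml.subsL at hb
  rw [Finset.mem_biUnion] at hb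
  obtain ⟨l, hl, hb⟩ := hb
  rw [List.mem_toFinset] at hl
  have h1 := blk_subs hb
  rw [h l hl] at h1
  have h2 : Fml.blk none (Fml.bin c b b') =
      1 + max (Fml.blk (some c) b) (Fml.blk (some c) b') := by
    simp [Fml.blk]
  omega

theorem main_T (k Δ : ℕ) (hk : 3 ≤ k) :
    ∃ G : (n : ℕ) → Finset (Fin (Δ * n) → Fin k → Fin n × Bool),
      Tendsto (fun n : ℕ => ((G n).card : ℝ) /
        Fintype.card (Fin (Δ * n) → Fin k → Fin n × Bool)) atTop (𝓝 1) ∧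
      (2 ^ k ≤ Δ → ∀ n, ∀ F ∈ G n, ∀ v : Fin n → Bool, ∃ i, ∀ j, v (F i j).1 ≠ (F i j).2) ∧
      ∀ p : ℕ, p.Prime → ∀ K d a : ℕ, ∃ C n0 : ℕ, ∀ n ≥ n0, ∀ F ∈ G n,
        ∀ pi : List (Fml p (Fin n)), Fml.IsDer K (Set.range fun i => Fml.clauseF (F i)) pi →
          (Fml.dnfF F ∈ pi ∨ Fml.cst false ∈ pi) →
          (∀ b ∈ pi, Fml.depth b ≤ d ∧ Fml.blk none b ≤ a) →
          n ^ 2 ^ a ≤ C * ((Fml.inputs pi).card ^ (2 ^ a - 1) *
            (Nat.log 2 (Fml.inner pi).card + 1) ^ (2 ^ a - 2) *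
            (Nat.log 2 (Fml.subsL pi).card + 1)) := by
  obtain ⟨ρ, G, hρ1, hT, hun, hexp⟩ := typical k Δ hk
  refine ⟨G, hT, hun, ?_⟩
  intro p hp K d a
  have : Fact p.Prime := ⟨hp⟩
  have hρ : 0 < ρ := hρ1
  have key : ∀ a' : ℕ, ∃ C n0 : ℕ, 1 ≤ n0 ∧ ∀ n ≥ n0, ∀ F ∈ G n,
      ∀ pi : List (Fml p (Fin n)), Fml.IsDer K (Set.range fun i => Fml.clauseF (F i)) pi →
        (Fml.dnfF F ∈ pi ∨ Fml.cst false ∈ pi) →
        (∀ b ∈ pi, Fml.depth b ≤ d ∧ Fml.blk none b ≤ a' + 1) →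
        n ^ 2 ^ (a' + 1) ≤ C * ((Fml.inputs pi).card ^ (2 ^ (a' + 1) - 1) *
          (Nat.log 2 (Fml.inner pi).card + 1) ^ (2 ^ (a' + 1) - 2) *
          (Nat.log 2 (Fml.subsL pi).card + 1)) := by
    intro a'
    obtain ⟨C, r0, n0, h⟩ := main_T_exp k 2 (2 * ρ) (by norm_num) p K d a'
    refine ⟨C, ρ * (r0 + 1) + n0 + 1, by omega, ?_⟩
    intro n hn F hF pi hpi hend hcost
    obtain ⟨r, hrd⟩ : ∃ r, r = n / ρ := ⟨_, rfl⟩
    have hr0 : r0 + 1 ≤ r := by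
      rw [hrd, Nat.le_div_iff_mul_le hρ, mul_comm]
      omega
    have hnr : n ≤ 2 * ρ * r := by
      have h1 : n < ρ * (r + 1) := by
        rw [hrd]
        exact Nat.lt_mul_div_succ n hρ
      have h2 : ρ * (r + 1) ≤ ρ * (2 * r) := Nat.mul_le_mul_left ρ (by omega)
      have h3 : ρ * (2 * r) = 2 * ρ * r := by ring
      omega
    exact h n (Δ * n) F r (by omega) (by omega) hnr (by rw [hrd]; exact hexp n F hF) pi hpi
      hend hcost
  rcases a with _ | a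
  · obtain ⟨C, n0, hn0, h⟩ := key 0
    refine ⟨C, n0, ?_⟩
    intro n hn F hF pi hpi hend hcost
    have h1 := h n hn F hF pi hpi hend
      (fun b hb => ⟨(hcost b hb).1, (hcost b hb).2.trans (Nat.zero_le _)⟩)
    have h2 : (Fml.inputs pi).card = 0 := by
      rw [Finset.card_eq_zero]
      exact fi2_inputs fun b hb => Nat.le_zero.1 (hcost b hb).2
    rw [h2] at h1
    exfalso
    have h3 : (0 : ℕ) ^ (2 ^ (0 + 1) - 1) = 0 := by norm_num
    rw [h3, Nat.zero_mul, Nat.zero_mul, Nat.mul_zero] at h1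
    have h4 : 0 < n ^ 2 ^ (0 + 1) := Nat.pow_pos (by omega)
    omega
  · obtain ⟨C, n0, -, h⟩ := key a
    exact ⟨C, n0, h⟩

end Pool.Agent.Work.MP_c04246_lc.R
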