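import Pool.Agent.Work.MP_c04246_lc.G.SD1

/-!
The size-degree relation for `AC0[p]`-Frege.
-/

set_option autoImplicit false

namespace Pool.Agent.Work.MP_c04246_lc.R

open Finset

/-- `a + 1` alternations; `E` bounds the degree of polynomial calculus. -/
theorem size_degree_succ (p : ℕ) [Fact p.Prime] (K dep a : ℕ) :
    ∃ C : ℕ, ∀ (n m k D : ℕ) (F : Fin m → Fin k → Fin n × Bool), C * (k + 1) ≤ D →
      ¬ PC (ZMod p) (clF F) D 1 →
      ∀ pi : List (Fml p (Fin n)), Fml.IsDer K (Set.range fun i => Fml.clauseF (F i)) pi →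
        (Fml.dnfF F ∈ pi ∨ Fml.cst false ∈ pi) →
        (∀ b ∈ pi, Fml.depth b ≤ dep ∧ Fml.blk none b ≤ a + 1) →
        D ^ 2 ^ (a + 1) ≤ C * ((Fml.inputs pi).card ^ (2 ^ (a + 1) - 1) *
          (Nat.log 2 (Fml.inner pi).card + 1) ^ (2 ^ (a + 1) - 2) *
          (Nat.log 2 (Fml.subsL pi).card + 1)) := by
  have hp2 := (Fact.out : p.Prime).two_le
  have hpd : 1 ≤ p ^ dep := Nat.one_le_pow _ _ (by omega)
  obtain ⟨c9, hc9⟩ : ∃ c9, c9 = 9 * p + cS p K + 2 := ⟨_, rfl⟩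
  obtain ⟨C, n0, hC⟩ := numT (p ^ dep) a (c9 * p ^ dep) 4 hpd
  refine ⟨C + n0 + 4 * c9 + 8, ?_⟩
  intro n m k D F hkD hPC pi hpi hend hb
  by_contra hlt
  rw [not_le] at hlt
  have hk0 : C + n0 + 4 * c9 + 8 ≤ D := le_trans (Nat.le_mul_of_pos_right _ (Nat.succ_pos k)) hkD
  have hk1 : (4 * c9 + 8) * k ≤ D := by
    refine le_trans ?_ hkD
    exact Nat.mul_le_mul (by omega) (Nat.le_succ k)
  have hk2 : 4 * c9 * k + 8 * k ≤ D := by
    calc 4 * c9 * k + 8 * k = (4 * c9 + 8) * k := by ring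
      _ ≤ D := hk1
  -- the degree left for the argument
  obtain ⟨D1, hD1⟩ : ∃ D1, D1 = D / 4 + 1 := ⟨_, rfl⟩
  have hD4 : D ≤ 4 * D1 := by omega
  have hlt2 : C * ((Fml.inputs pi).card ^ (2 ^ (a + 1) - 1) *
          (Nat.log 2 (Fml.inner pi).card + 1) ^ (2 ^ (a + 1) - 2) *
          (Nat.log 2 (Fml.subsL pi).card + 1)) < D ^ 2 ^ (a + 1) :=
    lt_of_le_of_lt (Nat.mul_le_mul_right _ (by omega)) hlt
  obtain ⟨R, c, t, m', hR, ht, hc, hm, hD⟩ := hC D D1 (Fml.inputs pi).card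
    (Nat.log 2 (Fml.inner pi).card + 1) (Nat.log 2 (Fml.subsL pi).card + 1) (by omega) hD4
    (Nat.succ_le_succ (Nat.zero_le _))
    (Nat.succ_le_succ (Nat.log_mono_right (card_le_card (inner_sub pi)))) hlt2
  have hDk : k ≤ D := by omega
  have hV1 : ClV (pcV (ZMod p) (clF F) D) (D - k + k) := by
    rw [Nat.sub_add_cancel hDk]
    exact clV_pcV _ _
  refine no_ref2 k p K dep a n m F (D - k) (pcV (ZMod p) (clF F) D) hV1 (fun i => ?_) hPC pi hpi
    hend (fun l hl => (hb l hl).2) (fun l hl => (hb l hl).1) R c t m' hR ht hc hm ?_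
  · refine PC.ax i (fal_mem_Dg _ ?_)
    refine le_trans ?_ hDk
    unfold clF
    refine card_image_le.trans (card_image_le.trans ?_)
    simp
  · rw [← hc9]
    have h1 : c9 * (k + p ^ dep * (t * dl (p ^ dep) R a)) =
        c9 * k + c9 * p ^ dep * (t * dl (p ^ dep) R a) := by ring
    rw [h1]
    have h2 : 4 * c9 * k = 4 * (c9 * k) := by ring
    omega

theorem inputs_empty {U : Type} {p : ℕ} {pi : List (Fml p U)}
    (h : ∀ b ∈ pi, Fml.blk none b = 0) : Fml.inputs pi = ∅ := by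
  classical
  unfold Fml.inputs
  rw [Finset.filter_eq_empty_iff]
  rintro x - ⟨c, b, b', hb, -⟩
  unfold Fml.subsL at hb
  rw [Finset.mem_biUnion] at hb
  obtain ⟨l, hl, hb⟩ := hb
  rw [List.mem_toFinset] at hl
  have h1 := blk_subs hb
  rw [h l hl] at h1
  have h2 : Fml.blk none (Fml.bin c b b') =
      1 + max (Fml.blk (some c) b) (Fml.blk (some c) b') := by
    simp [Fml.blk]
  omega

/-- The size-degree relation. -/
theorem size_degree (p : ℕ) [Fact p.Prime] (K dep a : ℕ) :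
    ∃ C : ℕ, ∀ (n m k D : ℕ) (F : Fin m → Fin k → Fin n × Bool), C * (k + 1) ≤ D →
      ¬ PC (ZMod p) (clF F) D 1 →
      ∀ pi : List (Fml p (Fin n)), Fml.IsDer K (Set.range fun i => Fml.clauseF (F i)) pi →
        (Fml.dnfF F ∈ pi ∨ Fml.cst false ∈ pi) →
        (∀ b ∈ pi, Fml.depth b ≤ dep ∧ Fml.blk none b ≤ a) →
        D ^ 2 ^ a ≤ C * ((Fml.inputs pi).card ^ (2 ^ a - 1) *
          (Nat.log 2 (Fml.inner pi).card + 1) ^ (2 ^ a - 2) *
          (Nat.log 2 (Fml.subsL pi).card + 1)) := by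
  rcases a with _ | a
  · obtain ⟨C, h⟩ := size_degree_succ p K dep 0
    refine ⟨C + 1, ?_⟩
    intro n m k D F hkD hPC pi hpi hend hb
    have hkD' : C * (k + 1) ≤ D := le_trans (Nat.mul_le_mul_right _ (by omega)) hkD
    have h1 := h n m k D F hkD' hPC pi hpi hend
      (fun b hbb => ⟨(hb b hbb).1, (hb b hbb).2.trans (Nat.zero_le _)⟩)
    have h2 : (Fml.inputs pi).card = 0 := by
      rw [Finset.card_eq_zero]
      exact inputs_empty fun b hbb => Nat.le_zero.1 (hb b hbb).2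
    rw [h2] at h1
    exfalso
    have h3 : (0 : ℕ) ^ (2 ^ (0 + 1) - 1) = 0 := by norm_num
    rw [h3, Nat.zero_mul, Nat.zero_mul, Nat.mul_zero] at h1
    have hD : 0 < D := by
      have h5 : 1 ≤ (C + 1) * (k + 1) := Nat.mul_pos (Nat.succ_pos _) (Nat.succ_pos _)
      omega
    have h4 : 0 < D ^ 2 ^ (0 + 1) := Nat.pow_pos hD
    omega
  · exact size_degree_succ p K dep a

end Pool.Agent.Work.MP_c04246_lc.R
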