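import Pool.Agent.Work.MP_c04246_lc.G.SDDefs
import Pool.Agent.Work.MP_c04246_lc.G.SD2

/-!
The size-degree relation for `AC0[p]`-Frege, final form.
-/

set_option autoImplicit false

namespace Pool.Agent.Work.MP_c04246_lc.R

open Finset

private theorem fal_clF {𝕜 : Type} [Field 𝕜] {U : Type} [Fintype U] [DecidableEq U] {m k : ℕ}
    (F : Fin m → Fin k → U × Bool) (i : Fin m) : fal 𝕜 (clF F i) = clausePoly 𝕜 (F i) := by
  classical
  funext y
  unfold fal clausePoly clF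
  have h : (∃ l ∈ univ.image (F i), y l.1 = l.2) ↔ ∃ j, y (F i j).1 = (F i j).2 := by
    constructor
    · rintro ⟨l, hl, h⟩
      obtain ⟨j, -, rfl⟩ := mem_image.1 hl
      exact ⟨j, h⟩
    · rintro ⟨j, h⟩
      exact ⟨F i j, mem_image_of_mem _ (mem_univ j), h⟩
  simp only [h]

private theorem pcDer_of_PC {𝕜 : Type} [Field 𝕜] {U : Type} [Fintype U] [DecidableEq U] {m k : ℕ}
    {F : Fin m → Fin k → U × Bool} {D : ℕ} {f : (U → Bool) → 𝕜} (h : PC 𝕜 (clF F) D f) :
    PCDer 𝕜 F D f := by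
  induction h with
  | ax i hi =>
    rw [fal_clF] at hi ⊢
    exact PCDer.clause i hi
  | zero => exact PCDer.zero
  | lin a b f g _ _ hf hg => exact PCDer.lin a b f g hf hg
  | mul x e f _ he hD hf => exact PCDer.mul x e f hf he hD

/-- The size-degree relation. -/
theorem size_degree_main (p : ℕ) (hp : p.Prime) (K d a : ℕ) :
    ∃ C : ℕ, ∀ (n m k D : ℕ) (F : Fin m → Fin k → Fin n × Bool),
      C * (k + 1) ≤ D → (haveI := Fact.mk hp; ¬ PCDer (ZMod p) F D 1) →
      ∀ pi : List (Fml p (Fin n)), Fml.IsDer K (Set.range fun i => Fml.clauseF (F i)) pi →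
        (Fml.dnfF F ∈ pi ∨ Fml.cst false ∈ pi) →
        (∀ b ∈ pi, Fml.depth b ≤ d ∧ Fml.blk none b ≤ a) →
        D ^ 2 ^ a ≤ C * ((Fml.inputs pi).card ^ (2 ^ a - 1) *
          (Nat.log 2 (Fml.inner pi).card + 1) ^ (2 ^ a - 2) *
          (Nat.log 2 (Fml.subsL pi).card + 1)) := by
  haveI := Fact.mk hp
  obtain ⟨C, h⟩ := size_degree p K d a
  exact ⟨C, fun n m k D F hk hPC => h n m k D F hk fun h1 => hPC (pcDer_of_PC h1)⟩

end Pool.Agent.Work.MP_c04246_lc.R
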