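import Pool.Agent.Work.MP_c04246_lc.G.Df
import Pool.Agent.Work.MP_c04246_lc.R.Sound

/-!
# Gates modulo a pseudo-ideal, states

Definitions only. `Dg (ZMod p) d`: functions of degree at most `d`; `ClV V D`: `V` is closed under
multiplication as long as the total degree is at most `D`; `tau true P = P`, `tau false P = 1 - P`.
(R/RBase; the lemmas about them are in R/MonA, R/EvA: `Dg_mono`, `mul_mem_Dg`, `prod_mem_Dg`,
`one_mem_Dg`, `const_mem_Dg`, `var_mem_Dg`, `mdA_mem_Dg`, `ClV.th`, `mem_Vth`, `mem_Vth_of`, `tau_mem_Dg`, ...)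
-/

set_option autoImplicit false

namespace Pool.Agent.Work.MP_c04246_lc.R

open Finset

section

variable {U : Type} {p : ℕ} [Fact p.Prime]

/-- `P` is the product of the functions `f i`, `i ∈ L`, modulo `V`: some `f i` is zero and `P` is zero;
or `P` is a short product and all other factors are one. -/
def GO {ι : Type} (V : Submodule (ZMod p) ((U → Bool) → ZMod p)) (B : ℕ)
    (f : ι → (U → Bool) → ZMod p) (L : Finset ι) (P : (U → Bool) → ZMod p) : Prop :=
  (P ∈ V ∧ ∃ i ∈ L, f i ∈ V) ∨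
  ∃ (N : Finset ι) (e : ℕ), N ⊆ L ∧ N.card * e ≤ B ∧ (∀ i ∈ N, f i ∈ Dg (ZMod p) e) ∧
    (∀ i ∈ L, i ∉ N → 1 - f i ∈ V) ∧ P - ∏ i ∈ N, f i ∈ V

/-- the relation at the outermost connective of a formula; `V` is used for conjunctions and
disjunctions only -/
def Rl (V : Submodule (ZMod p) ((U → Bool) → ZMod p)) (B : ℕ)
    (Pf : Fml p U → (U → Bool) → ZMod p) : Fml p U → Prop
  | .var x => Pf (.var x) = indF (fun y => y x)
  | .cst b => Pf (.cst b) = indF (fun _ => b)
  | .neg a => Pf (.neg a) = 1 - Pf a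
  | .bin c a b => GO V B (fun l => tau (!c) (Pf l)) (Fml.args c (.bin c a b))
      (tau (!c) (Pf (.bin c a b)))
  | .mod i k f => Pf (.mod i k f) = mdA (fun r => decide (r = i)) (∑ j, Pf (f j))

/-- `Pf` evaluates the formulas of `A` by functions of degree at most `B` modulo `V` -/
structure St (V : Submodule (ZMod p) ((U → Bool) → ZMod p)) (D B : ℕ) (A : Finset (Fml p U))
    (Pf : Fml p U → (U → Bool) → ZMod p) : Prop where
  cl : ClV V D
  one : (1 : (U → Bool) → ZMod p) ∉ V
  ev : ∀ a ∈ A, Pf a ∈ Dg (ZMod p) B ∧ Pf a * (1 - Pf a) ∈ V ∧ Rl V B Pf a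

/-- `A` is closed under subformulas -/
def Cls (A : Finset (Fml p U)) : Prop := ∀ a ∈ A, ∀ b ∈ Fml.subs a, b ∈ A

/-- degrees of the levels -/
def dl (E R : ℕ) : ℕ → ℕ
  | 0 => E
  | j + 1 => E * (R * dl E R j * dl E R j)

end

end Pool.Agent.Work.MP_c04246_lc.R
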