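import Pool.Agent.Work.MP_c04246_lc.G.NulW

/-!
MODULE GatA (size S-M). Simple facts about gates modulo `V` (`GO` is defined in G/Ba.lean).

Proof.
* `GO.mono`: every statement `g ∈ V` in the definition of `GO` is about a function `g ∈ Dg B`: `P`, `f i`, `1 - f i`, and
  `P - ∏ i ∈ N, f i` (`prod_mem_Dg`, the degree is `N.card * e ≤ B`).
* `GO.single`: second alternative with `N = {i}`, `e = B`.
* `GO.idem`. First alternative: `P * (1 - P) ∈ V` by `ClV` (`B + B ≤ D`). Second alternative: let `Q = ∏ i ∈ N, f i`.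
  If `N = ∅` then `Q = 1`, `Q * (1 - Q) = 0`. Otherwise `e ≤ N.card * e ≤ B` and `nullW` with the index type `{i // i ∈ N}`
  for `q` and for `ρ`: `q i = f i`, `dq i = e`, `ρ i = f i * (1 - f i) ∈ V` (degree `2 * B`), gives `Q * (1 - Q) ∈ V`: if all
  `f i y ∈ {0, 1}` then `Q y ∈ {0, 1}`. Degrees: `2 * B + N.card * ((p - 1) * e) ≤ 2 * B + (p - 1) * B ≤ 4 * p * B`.
  Then `P * (1 - P) = Q * (1 - Q) + (P - Q) * (1 - P - Q)`, and `P - Q ∈ V ∩ Dg B`, `1 - P - Q ∈ Dg B`.
-/

set_option autoImplicit false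

namespace Pool.Agent.Work.MP_c04246_lc.R

open Finset

variable {U : Type} [Fintype U] [DecidableEq U] {p : ℕ} [Fact p.Prime]
  {V V' : Submodule (ZMod p) ((U → Bool) → ZMod p)} {ι : Type}

private lemma prod_deg {f : ι → (U → Bool) → ZMod p} (N : Finset ι) {e B : ℕ} (hB : N.card * e ≤ B)
    (h : ∀ i ∈ N, f i ∈ Dg (ZMod p) e) : ∏ i ∈ N, f i ∈ Dg (ZMod p) B := by
  have h1 := prod_mem_Dg (𝕜 := ZMod p) N (fun _ => e) f h
  rw [sum_const, smul_eq_mul] at h1
  exact Dg_mono hB h1

lemma GO.mono {B B' : ℕ} {f : ι → (U → Bool) → ZMod p} {L : Finset ι} {P : (U → Bool) → ZMod p}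
    (h : GO V B f L P) (hB : B ≤ B') (hf : ∀ i ∈ L, f i ∈ Dg (ZMod p) B) (hP : P ∈ Dg (ZMod p) B)
    (hV : ∀ g ∈ V, g ∈ Dg (ZMod p) B → g ∈ V') : GO V' B' f L P := by
  rcases h with ⟨h1, i, hi, h2⟩ | ⟨N, e, hN, he, hfe, h1, h2⟩
  · exact Or.inl ⟨hV P h1 hP, i, hi, hV _ h2 (hf i hi)⟩
  · refine Or.inr ⟨N, e, hN, he.trans hB, hfe, fun i hi hiN => ?_, ?_⟩
    · exact hV _ (h1 i hi hiN) (Submodule.sub_mem _ (one_mem_Dg B) (hf i hi))
    · exact hV _ h2 (Submodule.sub_mem _ hP (prod_deg N he hfe))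

lemma GO.single {B : ℕ} {f : ι → (U → Bool) → ZMod p} (i : ι) (hf : f i ∈ Dg (ZMod p) B) :
    GO V B f {i} (f i) := by
  refine Or.inr ⟨{i}, B, Subset.refl _, ?_, ?_, ?_, ?_⟩
  · rw [card_singleton, one_mul]
  · intro j hj
    rw [mem_singleton] at hj
    rw [hj]
    exact hf
  · intro j hj hj'
    exact absurd hj hj'
  · rw [prod_singleton, sub_self]
    exact Submodule.zero_mem _

lemma GO.idem {D B : ℕ} (hV : ClV V D) {f : ι → (U → Bool) → ZMod p} {L : Finset ι}
    {P : (U → Bool) → ZMod p} (h : GO V B f L P) (hP : P ∈ Dg (ZMod p) B)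
    (hf : ∀ i ∈ L, f i ∈ Dg (ZMod p) B ∧ f i * (1 - f i) ∈ V) (hD : 4 * p * B ≤ D) :
    P * (1 - P) ∈ V := by
  have hp : 2 ≤ p := (Fact.out : p.Prime).two_le
  have hBD : 2 * B ≤ D := by nlinarith
  rcases h with ⟨h1, -⟩ | ⟨N, e, hN, he, hfe, h1, h2⟩
  · exact hV B B P (1 - P) h1 hP (Submodule.sub_mem _ (one_mem_Dg B) hP) (by omega)
  · have hQ : ∏ i ∈ N, f i ∈ Dg (ZMod p) B := prod_deg N he hfe
    have hQQ : (∏ i ∈ N, f i) * (1 - ∏ i ∈ N, f i) ∈ V := by
      rcases N.eq_empty_or_nonempty with rfl | hne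
      · rw [prod_empty, sub_self, mul_zero]
        exact Submodule.zero_mem _
      · have hc : 1 ≤ N.card := hne.card_pos
        refine nullW hV (I := {i // i ∈ N}) (J := {i // i ∈ N}) (fun i => f i) (fun _ => e) (2 * B)
          (fun i => hfe i i.2) (fun i => f i * (1 - f i)) (fun i => ⟨(hf i (hN i.2)).2, ?_⟩) _ ?_ ?_ ?_ ?_
        · have h3 := mul_mem_Dg (hf i (hN i.2)).1
            (Submodule.sub_mem _ (one_mem_Dg B) (hf i (hN i.2)).1)
          rwa [← two_mul] at h3
        · intro j y y' hy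
          have := hy j
          simp only [Pi.mul_apply, Pi.sub_apply, Pi.one_apply]
          rw [this]
        · intro y y' hy
          have h3 : (∏ i ∈ N, f i) y = (∏ i ∈ N, f i) y' := by
            rw [Finset.prod_apply, Finset.prod_apply]
            exact prod_congr rfl fun i hi => hy ⟨i, hi⟩
          simp only [Pi.mul_apply, Pi.sub_apply, Pi.one_apply]
          rw [h3]
        · intro y hy
          have h01 : (∏ i ∈ N, f i) y = 0 ∨ (∏ i ∈ N, f i) y = 1 := by
            rw [Finset.prod_apply]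
            by_cases h0 : ∃ i ∈ N, f i y = 0
            · left
              obtain ⟨i, hi, h0⟩ := h0
              exact prod_eq_zero hi h0
            · right
              push Not at h0
              apply prod_eq_one
              intro i hi
              have h3 := hy ⟨i, hi⟩
              simp only [Pi.mul_apply, Pi.sub_apply, Pi.one_apply] at h3
              rcases mul_eq_zero.1 h3 with h4 | h4
              · exact absurd h4 (h0 i hi)
              · exact (sub_eq_zero.1 h4).symm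
          simp only [Pi.mul_apply, Pi.sub_apply, Pi.one_apply]
          rcases h01 with h3 | h3
          · rw [h3, zero_mul]
          · rw [h3, sub_self, mul_zero]
        · rw [sum_const, smul_eq_mul, card_univ, Fintype.card_coe]
          have h3 : N.card * ((p - 1) * e) = (p - 1) * (N.card * e) := by ring
          rw [h3]
          have h4 : (p - 1) * (N.card * e) ≤ (p - 1) * B := Nat.mul_le_mul_left _ he
          have h5 : (p - 1) * B ≤ p * B := Nat.mul_le_mul_right _ (Nat.sub_le _ _)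
          have h6 : 2 * B ≤ p * B := Nat.mul_le_mul_right _ hp
          have h7 : 4 * p * B = 4 * (p * B) := by ring
          omega
    have e1 : P * (1 - P) = (∏ i ∈ N, f i) * (1 - ∏ i ∈ N, f i) +
        (P - ∏ i ∈ N, f i) * (1 - P - ∏ i ∈ N, f i) := by ring
    rw [e1]
    refine Submodule.add_mem _ hQQ (hV B B _ _ h2 (Submodule.sub_mem _ hP hQ) ?_ (by omega))
    exact Submodule.sub_mem _ (Submodule.sub_mem _ (one_mem_Dg B) hP) hQ

end Pool.Agent.Work.MP_c04246_lc.R
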