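import Pool.Agent.Work.MP_c04246_lc.G.NulW

/-!
MODULE GatB (size M). The product of two gates modulo `V` (`GO` is defined in G/Ba.lean).

Proof. (0) If `f i ∈ V` and `1 - f i ∈ V` then `1 ∈ V`, impossible.
(1) Let `h` be the first alternative: `P ∈ V`, `f i ∈ V`, `i ∈ La ∪ Lb`. Say `i ∈ La` (the other case is symmetric). It suffices
that `Pa ∈ V` (then `Pa * Pb ∈ V`, `B + B ≤ D`). If `ha` is the first alternative this is clear. Otherwise `ha` gives `N`, `e`. By
(0) `i ∈ N`, so `∏ j ∈ N, f j = f i * ∏ j ∈ N.erase i, f j ∈ V` (`ClV` with the degrees `e` and `(N.card - 1) * e`, or `B` and `B`),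
and `Pa = (Pa - ∏ ..) + ∏ .. ∈ V`.
(2) Let `h` be the second alternative: `N`, `e`; `Q = ∏ i ∈ N, f i`, `P - Q ∈ V`. If `ha` is the first alternative: `Pa ∈ V` and
`f i ∈ V` for some `i ∈ La`; by (0) `i ∈ N`, so `Q ∈ V` as in (1), so `P ∈ V` and `Pa * Pb ∈ V`. The same for `hb`.
(3) All three are the second alternative: `N e`, `Na ea`, `Nb eb`, with products `Q, Qa, Qb`. `Q - Qa * Qb ∈ V` by `nullW`:
index type of `q` and `dq`: `{i // i ∈ N} ⊕ {i // i ∈ Na} ⊕ {i // i ∈ Nb}`, `q = f`, `dq = e, ea, eb`. `ρ`: for `i` in the same index type the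
function `f i * (1 - f i)` (in `V`, in `Dg (2 * B)`), and, for `i` in the same index type, the function
`if 1 - f i ∈ V then 1 - f i else 0`. Pointwise: let all `ρ` vanish at `y`. All `f i y ∈ {0, 1}`. If `Q y = 1`, i.e. `f i y = 1` for all
`i ∈ N`: every `i ∈ Na` is in `La ∪ Lb`, so `i ∈ N` or `1 - f i ∈ V`; in both cases `f i y = 1`. So `Qa y = Qb y = 1`. If
`Qa y = Qb y = 1`: every `i ∈ N` is in `La` or in `Lb`; if in `La`, then `i ∈ Na` or `1 - f i ∈ V`, so `f i y = 1`. So `Q y = 1`. As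
`Q y`, `Qa y`, `Qb y` are in `{0, 1}`, `Q y = Qa y * Qb y`. Degrees: `2 * B + (p - 1) * (N.card * e + Na.card * ea + Nb.card * eb) ≤
2 * B + 3 * (p - 1) * B ≤ 5 * p * B`. Finally
`P - Pa * Pb = (P - Q) + (Q - Qa * Qb) - (Pa - Qa) * Qb - Pa * (Pb - Qb)`, the last two by `ClV` (`Qb`, `Pa ∈ Dg B`).
-/

set_option autoImplicit false

namespace Pool.Agent.Work.MP_c04246_lc.R

open Finset

variable {U : Type} [Fintype U] [DecidableEq U] {p : ℕ} [Fact p.Prime]
  {V : Submodule (ZMod p) ((U → Bool) → ZMod p)} {ι : Type} [DecidableEq ι]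

theorem GO.mul {D B : ℕ} (hV : ClV V D) (h1 : (1 : (U → Bool) → ZMod p) ∉ V)
    {f : ι → (U → Bool) → ZMod p} {La Lb : Finset ι} {P Pa Pb : (U → Bool) → ZMod p}
    (h : GO V B f (La ∪ Lb) P) (ha : GO V B f La Pa) (hb : GO V B f Lb Pb)
    (hP : P ∈ Dg (ZMod p) B) (hPa : Pa ∈ Dg (ZMod p) B) (hPb : Pb ∈ Dg (ZMod p) B)
    (hf : ∀ i ∈ La ∪ Lb, f i ∈ Dg (ZMod p) B ∧ f i * (1 - f i) ∈ V) (hD : 5 * p * B ≤ D) :
    P - Pa * Pb ∈ V := by
  classical
  have hp : 1 ≤ p := (Fact.out : p.Prime).pos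
  have hpB : B ≤ p * B := Nat.le_mul_of_pos_left B hp
  have h5 : 5 * p * B = 5 * (p * B) := by ring
  rw [h5] at hD
  have h0 : ∀ i, f i ∈ V → 1 - f i ∈ V → False := fun i ha hb => h1 (by
    have := V.add_mem ha hb
    rwa [add_sub_cancel] at this)
  have hprod : ∀ (N : Finset ι) (e : ℕ), N.card * e ≤ B → (∀ j ∈ N, f j ∈ Dg (ZMod p) e) →
      ∏ j ∈ N, f j ∈ Dg (ZMod p) B := by
    intro N e hN hfN
    have h2 := prod_mem_Dg N (fun _ => e) f hfN
    rw [Finset.sum_const, smul_eq_mul] at h2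
    exact Dg_mono hN h2
  have hz : ∀ (N : Finset ι) (e : ℕ) (i : ι), N.card * e ≤ B → (∀ j ∈ N, f j ∈ Dg (ZMod p) e) →
      i ∈ N → f i ∈ V → ∏ j ∈ N, f j ∈ V := by
    intro N e i hN hfN hi hiV
    rw [← Finset.mul_prod_erase N f hi]
    have h2 := prod_mem_Dg (N.erase i) (fun _ => e) f
      (fun j hj => hfN j (Finset.mem_of_mem_erase hj))
    rw [Finset.sum_const, smul_eq_mul] at h2
    refine hV e _ _ _ hiV (hfN i hi) h2 ?_
    have h3 : (N.erase i).card + 1 = N.card := Finset.card_erase_add_one hi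
    have h4 : e + (N.erase i).card * e = N.card * e := by rw [← h3]; ring
    omega
  have key : ∀ (L : Finset ι) (Q : (U → Bool) → ZMod p), GO V B f L Q → ∀ i ∈ L, f i ∈ V →
      Q ∈ V := by
    rintro L Q (⟨hQ, -⟩ | ⟨N, e, -, hN, hfN, hoff, hQ⟩) i hi hiV
    · exact hQ
    · have hiN : i ∈ N := by
        by_contra hn
        exact h0 i hiV (hoff i hi hn)
      have := V.add_mem hQ (hz N e i hN hfN hiN hiV)
      rwa [sub_add_cancel] at this
  by_cases hex : ∃ i ∈ La ∪ Lb, f i ∈ V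
  · obtain ⟨i, hi, hiV⟩ := hex
    refine V.sub_mem (key _ _ h i hi hiV) ?_
    rcases Finset.mem_union.1 hi with hia | hib
    · exact hV B B _ _ (key _ _ ha i hia hiV) hPa hPb (by omega)
    · rw [mul_comm]
      exact hV B B _ _ (key _ _ hb i hib hiV) hPb hPa (by omega)
  · rcases h with ⟨-, hh⟩ | ⟨N, e, hNL, hN, hfN, hoff, hQ⟩
    · exact absurd hh hex
    rcases ha with ⟨-, i, hi, hiV⟩ | ⟨Na, ea, hNaL, hNa, hfNa, hoffa, hQa⟩
    · exact absurd ⟨i, Finset.mem_union_left _ hi, hiV⟩ hex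
    rcases hb with ⟨-, i, hi, hiV⟩ | ⟨Nb, eb, hNbL, hNb, hfNb, hoffb, hQb⟩
    · exact absurd ⟨i, Finset.mem_union_right _ hi, hiV⟩ hex
    have hmain : ∏ i ∈ N, f i - (∏ i ∈ Na, f i) * ∏ i ∈ Nb, f i ∈ V := by
      let g : ({i // i ∈ N} ⊕ {i // i ∈ Na} ⊕ {i // i ∈ Nb}) → ι :=
        Sum.elim (fun i => i.1) (Sum.elim (fun i => i.1) (fun i => i.1))
      let dq : ({i // i ∈ N} ⊕ {i // i ∈ Na} ⊕ {i // i ∈ Nb}) → ℕ :=
        Sum.elim (fun _ => e) (Sum.elim (fun _ => ea) (fun _ => eb))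
      have hgL : ∀ k, g k ∈ La ∪ Lb := by
        rintro (k | k | k)
        · exact hNL k.2
        · exact Finset.mem_union_left _ (hNaL k.2)
        · exact Finset.mem_union_right _ (hNbL k.2)
      have hqd : ∀ k, f (g k) ∈ Dg (ZMod p) (dq k) := by
        rintro (k | k | k)
        · exact hfN k.1 k.2
        · exact hfNa k.1 k.2
        · exact hfNb k.1 k.2
      let ρ : (({i // i ∈ N} ⊕ {i // i ∈ Na} ⊕ {i // i ∈ Nb}) ⊕
          ({i // i ∈ N} ⊕ {i // i ∈ Na} ⊕ {i // i ∈ Nb})) → (U → Bool) → ZMod p :=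
        Sum.elim (fun k => f (g k) * (1 - f (g k)))
          (fun k => if 1 - f (g k) ∈ V then 1 - f (g k) else 0)
      have hval : ∀ (M : Finset ι) (y : U → Bool), (∀ i ∈ M, f i y = 0 ∨ f i y = 1) →
          ((∏ i ∈ M, f i) y = 1 ∧ ∀ i ∈ M, f i y = 1) ∨
          ((∏ i ∈ M, f i) y = 0 ∧ ∃ i ∈ M, f i y ≠ 1) := by
        intro M y hM
        by_cases hall : ∀ i ∈ M, f i y = 1
        · left
          refine ⟨?_, hall⟩
          rw [Finset.prod_apply]
          exact Finset.prod_eq_one hall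
        · right
          push Not at hall
          refine ⟨?_, hall⟩
          obtain ⟨i, hi, hi1⟩ := hall
          rw [Finset.prod_apply]
          exact Finset.prod_eq_zero hi ((hM i hi).resolve_right hi1)
      refine nullW hV (fun k => f (g k)) dq (2 * B) hqd ρ ?_ _ ?_ ?_ ?_ ?_
      · rintro (k | k)
        · refine ⟨(hf _ (hgL k)).2, ?_⟩
          have h2 := mul_mem_Dg (hf _ (hgL k)).1
            (Submodule.sub_mem _ (one_mem_Dg B) (hf _ (hgL k)).1)
          rwa [← two_mul] at h2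
        · change (if 1 - f (g k) ∈ V then 1 - f (g k) else 0) ∈ V ∧
            (if 1 - f (g k) ∈ V then 1 - f (g k) else 0) ∈ Dg (ZMod p) (2 * B)
          split_ifs with h2
          · refine ⟨h2, Submodule.sub_mem _ (one_mem_Dg _) (Dg_mono (by omega) (hf _ (hgL k)).1)⟩
          · exact ⟨V.zero_mem, Submodule.zero_mem _⟩
      · rintro (k | k) y y' hy
        · change f (g k) y * (1 - f (g k) y) = f (g k) y' * (1 - f (g k) y')
          rw [hy k]
        · change (if 1 - f (g k) ∈ V then 1 - f (g k) else 0 : (U → Bool) → ZMod p) y =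
            (if 1 - f (g k) ∈ V then 1 - f (g k) else 0 : (U → Bool) → ZMod p) y'
          split_ifs with h2
          · change 1 - f (g k) y = 1 - f (g k) y'
            rw [hy k]
          · rfl
      · intro y y' hy
        have e1 : ∀ i ∈ N, f i y = f i y' := fun i hi => hy (Sum.inl ⟨i, hi⟩)
        have e2 : ∀ i ∈ Na, f i y = f i y' := fun i hi => hy (Sum.inr (Sum.inl ⟨i, hi⟩))
        have e3 : ∀ i ∈ Nb, f i y = f i y' := fun i hi => hy (Sum.inr (Sum.inr ⟨i, hi⟩))
        simp only [Pi.sub_apply, Pi.mul_apply, Finset.prod_apply]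
        rw [Finset.prod_congr rfl e1, Finset.prod_congr rfl e2, Finset.prod_congr rfl e3]
      · intro y hy
        have r1 : ∀ k, f (g k) y = 0 ∨ f (g k) y = 1 := by
          intro k
          have h2 : f (g k) y * (1 - f (g k) y) = 0 := hy (Sum.inl k)
          rcases mul_eq_zero.1 h2 with h3 | h3
          · exact Or.inl h3
          · exact Or.inr (sub_eq_zero.1 h3).symm
        have r2 : ∀ k, 1 - f (g k) ∈ V → f (g k) y = 1 := by
          intro k hk
          have h2 : (if 1 - f (g k) ∈ V then 1 - f (g k) else 0 : (U → Bool) → ZMod p) y = 0 :=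
            hy (Sum.inr k)
          rw [if_pos hk] at h2
          exact (sub_eq_zero.1 h2).symm
        have b1 : ∀ i ∈ N, f i y = 0 ∨ f i y = 1 := fun i hi => r1 (Sum.inl ⟨i, hi⟩)
        have b2 : ∀ i ∈ Na, f i y = 0 ∨ f i y = 1 := fun i hi => r1 (Sum.inr (Sum.inl ⟨i, hi⟩))
        have b3 : ∀ i ∈ Nb, f i y = 0 ∨ f i y = 1 := fun i hi => r1 (Sum.inr (Sum.inr ⟨i, hi⟩))
        have d1 : ∀ i ∈ N, 1 - f i ∈ V → f i y = 1 := fun i hi => r2 (Sum.inl ⟨i, hi⟩)
        have d2 : ∀ i ∈ Na, 1 - f i ∈ V → f i y = 1 := fun i hi => r2 (Sum.inr (Sum.inl ⟨i, hi⟩))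
        have d3 : ∀ i ∈ Nb, 1 - f i ∈ V → f i y = 1 := fun i hi => r2 (Sum.inr (Sum.inr ⟨i, hi⟩))
        rw [Pi.sub_apply, Pi.mul_apply]
        rcases hval N y b1 with ⟨q1, a1⟩ | ⟨q1, i, hi, hi1⟩
        · have q2 : (∏ i ∈ Na, f i) y = 1 := by
            rcases hval Na y b2 with ⟨q2, -⟩ | ⟨-, i, hi, hi1⟩
            · exact q2
            · exfalso
              apply hi1
              by_cases hiN : i ∈ N
              · exact a1 i hiN
              · exact d2 i hi (hoff i (Finset.mem_union_left _ (hNaL hi)) hiN)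
          have q3 : (∏ i ∈ Nb, f i) y = 1 := by
            rcases hval Nb y b3 with ⟨q3, -⟩ | ⟨-, i, hi, hi1⟩
            · exact q3
            · exfalso
              apply hi1
              by_cases hiN : i ∈ N
              · exact a1 i hiN
              · exact d3 i hi (hoff i (Finset.mem_union_right _ (hNbL hi)) hiN)
          rw [q1, q2, q3, mul_one, sub_self]
        · rcases hval Na y b2 with ⟨q2, a2⟩ | ⟨q2, -⟩
          · rcases hval Nb y b3 with ⟨q3, a3⟩ | ⟨q3, -⟩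
            · exfalso
              apply hi1
              rcases Finset.mem_union.1 (hNL hi) with hia | hib
              · by_cases hiN : i ∈ Na
                · exact a2 i hiN
                · exact d1 i hi (hoffa i hia hiN)
              · by_cases hiN : i ∈ Nb
                · exact a3 i hiN
                · exact d1 i hi (hoffb i hib hiN)
            · rw [q1, q3, mul_zero, sub_self]
          · rw [q1, q2, zero_mul, sub_self]
      · have hs : ∑ k, (p - 1) * dq k =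
            (p - 1) * (N.card * e) + ((p - 1) * (Na.card * ea) + (p - 1) * (Nb.card * eb)) := by
          rw [← Finset.mul_sum, Fintype.sum_sum_type, Fintype.sum_sum_type]
          simp only [dq, Sum.elim_inl, Sum.elim_inr, Finset.sum_const, Finset.card_univ,
            Fintype.card_coe, smul_eq_mul]
          ring
        rw [hs]
        have m1 : (p - 1) * (N.card * e) ≤ p * B := Nat.mul_le_mul (Nat.sub_le p 1) hN
        have m2 : (p - 1) * (Na.card * ea) ≤ p * B := Nat.mul_le_mul (Nat.sub_le p 1) hNa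
        have m3 : (p - 1) * (Nb.card * eb) ≤ p * B := Nat.mul_le_mul (Nat.sub_le p 1) hNb
        omega
    have hQbD := hprod Nb eb hNb hfNb
    have hQaD := hprod Na ea hNa hfNa
    have t1 : (Pa - ∏ i ∈ Na, f i) * ∏ i ∈ Nb, f i ∈ V :=
      hV B B _ _ hQa (Submodule.sub_mem _ hPa hQaD) hQbD (by omega)
    have t2 : (Pb - ∏ i ∈ Nb, f i) * Pa ∈ V :=
      hV B B _ _ hQb (Submodule.sub_mem _ hPb hQbD) hPa (by omega)
    have h9 : P - Pa * Pb = (P - ∏ i ∈ N, f i) +
        (∏ i ∈ N, f i - (∏ i ∈ Na, f i) * ∏ i ∈ Nb, f i) -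
        (Pa - ∏ i ∈ Na, f i) * ∏ i ∈ Nb, f i - (Pb - ∏ i ∈ Nb, f i) * Pa := by ring
    rw [h9]
    exact V.sub_mem (V.sub_mem (V.add_mem hQ hmain) t1) t2

end Pool.Agent.Work.MP_c04246_lc.R
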