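import Pool.Agent.Work.MP_c04246_lc.G.Syn
import Pool.Agent.Work.MP_c04246_lc.G.GatA
import Pool.Agent.Work.MP_c04246_lc.G.GatB

/-!
MODULE Rel (size S-M). In a state all relations at the outermost connectives hold modulo `V`.

Proof. Cases on `a`. var, cst, neg, mod: the relation `Rl` is an equation, so the difference is `0`. `bin c a b`: for `ψ ∈ A` any formula,
`GO V B (fun l => tau (!c) (Pf l)) (args c ψ) (tau (!c) (Pf ψ))`: if `ψ = bin c ..` this is `Rl`; otherwise `args c ψ = {ψ}` (`args_other`) and
`GO.single`. By `args_bin` and `GO.mul` (`La = args c a`, `Lb = args c b`, both inside `A` by `args_sub` and `hA`):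
`tau (!c) (Pf (bin c a b)) - tau (!c) (Pf a) * tau (!c) (Pf b) ∈ V` (`tau_mem_Dg`, `tau_mul_one_sub`). For `c = false` (`tau true P = P`) this is
the claim; for `c = true` (`tau false P = 1 - P`): `(1 - P) - (1 - Pa) * (1 - Pb) = - (P - (Pa + Pb - Pa * Pb))`.
-/

set_option autoImplicit false

namespace Pool.Agent.Work.MP_c04246_lc.R

open Finset

variable {U : Type} [Fintype U] [DecidableEq U] {p : ℕ} [Fact p.Prime]

private lemma rel_sub_eq {V : Submodule (ZMod p) ((U → Bool) → ZMod p)}
    {P Q : (U → Bool) → ZMod p} (h : P = Q) : P - Q ∈ V := by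
  rw [h, sub_self]
  exact Submodule.zero_mem _

private lemma rel_GO {V : Submodule (ZMod p) ((U → Bool) → ZMod p)} {D B : ℕ}
    {A : Finset (Fml p U)} {Pf : Fml p U → (U → Bool) → ZMod p} (hS : St V D B A Pf)
    (c : Bool) {x : Fml p U} (hx : x ∈ A) :
    GO V B (fun l => tau (!c) (Pf l)) (Fml.args c x) (tau (!c) (Pf x)) := by
  by_cases h : ∃ b b', x = .bin c b b'
  · obtain ⟨b, b', rfl⟩ := h
    exact (hS.ev _ hx).2.2
  · have h' : ∀ b b', x ≠ .bin c b b' := fun b b' hb => h ⟨b, b', hb⟩
    rw [args_other c x h']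
    exact GO.single (f := fun l => tau (!c) (Pf l)) x (tau_mem_Dg (hS.ev _ hx).1)

theorem rel_of_St {V : Submodule (ZMod p) ((U → Bool) → ZMod p)} {D B : ℕ}
    {A : Finset (Fml p U)} {Pf : Fml p U → (U → Bool) → ZMod p} (hS : St V D B A Pf)
    (hA : Cls A) (hD : 5 * p * B ≤ D) : ∀ a ∈ A, RelV V (fun y => y) Pf a := by
  classical
  intro a ha
  cases a with
  | var x => exact rel_sub_eq (hS.ev _ ha).2.2
  | cst b => exact rel_sub_eq (hS.ev _ ha).2.2
  | neg a => exact rel_sub_eq (hS.ev _ ha).2.2
  | mod i k f => exact rel_sub_eq (hS.ev _ ha).2.2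
  | bin c a b =>
    have haA : a ∈ A := hA _ ha _ (by
      unfold Fml.subs
      simp [self_mem_subs])
    have hbA : b ∈ A := hA _ ha _ (by
      unfold Fml.subs
      simp [self_mem_subs])
    have h := rel_GO hS c ha
    have h1 := rel_GO hS c haA
    have h2 := rel_GO hS c hbA
    rw [args_bin] at h
    have key := GO.mul hS.cl hS.one h h1 h2 (tau_mem_Dg (hS.ev _ ha).1)
      (tau_mem_Dg (hS.ev _ haA).1) (tau_mem_Dg (hS.ev _ hbA).1) (by
        intro i hi
        have hiA : i ∈ A := by
          rcases Finset.mem_union.1 hi with hi | hi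
          · exact hA _ haA _ (args_sub c a hi)
          · exact hA _ hbA _ (args_sub c b hi)
        refine ⟨tau_mem_Dg (hS.ev _ hiA).1, ?_⟩
        show tau (!c) (Pf i) * (1 - tau (!c) (Pf i)) ∈ V
        rw [tau_mul_one_sub]
        exact (hS.ev _ hiA).2.1) hD
    show Pf (.bin c a b) - (if c = true then Pf a + Pf b - Pf a * Pf b else Pf a * Pf b) ∈ V
    cases c with
    | false =>
      have e : Pf (.bin false a b) -
          (if (false : Bool) = true then Pf a + Pf b - Pf a * Pf b else Pf a * Pf b) =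
          Pf (.bin false a b) - Pf a * Pf b := by simp
      rw [e]
      exact key
    | true =>
      have e : Pf (.bin true a b) -
          (if (true : Bool) = true then Pf a + Pf b - Pf a * Pf b else Pf a * Pf b) =
          -((1 - Pf (.bin true a b)) - (1 - Pf a) * (1 - Pf b)) := by
        rw [if_pos rfl]
        ring
      rw [e]
      exact Submodule.neg_mem _ key

end Pool.Agent.Work.MP_c04246_lc.R
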