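import Pool.Agent.Work.MP_c04246_lc.G.Itr
import Pool.Agent.Work.MP_c04246_lc.G.Rel
import Pool.Agent.Work.MP_c04246_lc.R.ClEv
import Pool.Agent.Work.MP_c04246_lc.R.PFin

/-!
MODULE Ctr (size M). There is no refutation if the parameters of `iter` exist.

Proof. `exists_V0 (ZMod p) (clF F) k r e D he _ hE h3` (`card_vr_clF`) gives `V0`. `iter` gives `V`, `Pf` with
`D' = D - a * c - m * dl ..`, `B = p ^ dep * (t * dl ..) ≥ 1` (`dl ≥ 1`), `St V D' B (subsL pi) Pf`. `rel_of_St` (`5 * p * B ≤ D'`) gives `RelV` for all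
subformulas of lines, `sg = fun y => y` (`Cow` is clear). Let `d = (k + 1) * B`, so `k ≤ d`, `1 ≤ d`, `B ≤ d`, `2 * d ≤ D'`, `cS p K * d ≤ D'`.
`hV3` for `V`, `D'`, `B1 = e * D ≥ 1`: `f ∈ V0` by the third property of `V0` (`D' ≤ D`), and `f ∈ V` by the last statement of `iter`.
The rest is the end of the proof of `main_exp` in R/Fin2.lean word for word: by strong induction on the index every line has `1 - Pf _ ∈ V`
(`clause_ev` for clauses, `sound` otherwise), and `Pf (dnfF F) ∈ V` (`dnf_ev`), `Pf (cst false) ∈ V`; so `1 ∈ V`, a contradiction.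
-/

set_option autoImplicit false

namespace Pool.Agent.Work.MP_c04246_lc.R

open Finset

private lemma ctr_card {n m k : ℕ} (F : Fin m → Fin k → Fin n × Bool) (i : Fin m) :
    (vr (clF F) i).card ≤ k := by
  unfold vr clF
  refine card_image_le.trans (card_image_le.trans ?_)
  simp

private lemma ctr_dl {E R : ℕ} (hE : 1 ≤ E) (hR : 1 ≤ R) (j : ℕ) : 1 ≤ dl E R j := by
  induction j with
  | zero => exact hE
  | succ j ih => exact Nat.mul_pos hE (Nat.mul_pos (Nat.mul_pos hR ih) ih)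

theorem no_ref (k e : ℕ) (he : 1 ≤ e) (p : ℕ) [Fact p.Prime] (K dep a : ℕ) (n m' : ℕ)
    (F : Fin m' → Fin k → Fin n × Bool) (r D : ℕ) (hE : Expn (clF F) r e)
    (h3 : 3 * (e * D * (k * e + 1)) ≤ r) (pi : List (Fml p (Fin n)))
    (hpi : Fml.IsDer K (Set.range fun i => Fml.clauseF (F i)) pi)
    (hend : Fml.dnfF F ∈ pi ∨ Fml.cst false ∈ pi)
    (hblk : ∀ l ∈ pi, Fml.blk none l ≤ a + 1) (hdep : ∀ l ∈ pi, Fml.depth l ≤ dep)
    (R c t m : ℕ) (hR : 1 ≤ R) (ht : 1 ≤ t)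
    (hc : ∀ i < a, (2 * (Fml.inputs pi).card * (Nat.log 2 (Fml.inner pi).card + 1) /
      (R * dl (p ^ dep) R i) + 1) * dl (p ^ dep) R i ≤ c)
    (hm : 2 * (Fml.inputs pi).card * (Nat.log 2 (Fml.subsL pi).card + 1) ≤ m * t ∨
      (Fml.inputs pi).card ≤ t)
    (hD : a * c + m * dl (p ^ dep) R a +
      (9 * p + cS p K + 2) * (k + 1) * p ^ dep * (t * dl (p ^ dep) R a) ≤ D) : False := by
  classical
  have hp2 := (Fact.out : p.Prime).two_le
  have hpd : 1 ≤ p ^ dep := Nat.one_le_pow _ _ (by omega)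
  have hdl : 1 ≤ dl (p ^ dep) R a := ctr_dl hpd hR a
  obtain ⟨V0, hV0D, hV0, hV03, h1V0⟩ :=
    exists_V0 (ZMod p) (clF F) k r e D he (ctr_card F) hE h3
  obtain ⟨B, hB⟩ : ∃ B, B = p ^ dep * (t * dl (p ^ dep) R a) := ⟨_, rfl⟩
  have hB1 : 1 ≤ B := by
    rw [hB]
    exact Nat.mul_pos hpd (Nat.mul_pos ht hdl)
  have hD2 : a * c + m * dl (p ^ dep) R a + (9 * p + cS p K + 2) * ((k + 1) * B) ≤ D := by
    refine le_trans (le_of_eq ?_) hD
    rw [hB]; ring
  have hkB : B ≤ (k + 1) * B := Nat.le_mul_of_pos_left _ (Nat.succ_pos k)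
  have hkB' : k ≤ (k + 1) * B := le_trans (Nat.le_succ k) (Nat.le_mul_of_pos_right _ hB1)
  have hexp : (9 * p + cS p K + 2) * ((k + 1) * B) =
      9 * p * ((k + 1) * B) + cS p K * ((k + 1) * B) + 2 * ((k + 1) * B) := by ring
  have h4p : 4 * p * B ≤ 9 * p * ((k + 1) * B) :=
    Nat.mul_le_mul (Nat.mul_le_mul_right p (by norm_num)) hkB
  have h5p : 5 * p * B ≤ 9 * p * ((k + 1) * B) :=
    Nat.mul_le_mul (Nat.mul_le_mul_right p (by norm_num)) hkB
  obtain ⟨V, Pf, hS, hVV⟩ := iter hV0 h1V0 pi a dep hblk hdep R c t m hR ht hc hm (by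
    rw [← hB]
    omega)
  rw [← hB] at hS
  obtain ⟨D', hD'⟩ : ∃ D', D' = D - a * c - m * dl (p ^ dep) R a := ⟨_, rfl⟩
  rw [← hD'] at hS hVV
  obtain ⟨d, hd⟩ : ∃ d, d = (k + 1) * B := ⟨_, rfl⟩
  rw [← hd] at hD2 hkB hkB' hexp h4p h5p
  have hd1 : 1 ≤ d := le_trans hB1 hkB
  have hcS : cS p K * d ≤ D' := by omega
  have h2d : 2 * d ≤ D' := by omega
  have h5D : 5 * p * B ≤ D' := by omega
  have hD'D : D' ≤ D := by omega
  have hV : ClV V D' := hS.cl
  have hco : Cow (fun y : Fin n → Bool => y) := fun _ _ _ h => h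
  have hrel := rel_of_St hS (cls_subsL pi) h5D
  have hBeD : 1 ≤ e * D := Nat.mul_pos he (by omega)
  have hV3 : ∀ (I : Finset (Fin m')) (f : (Fin n → Bool) → ZMod p), I.card ≤ e * D →
      f ∈ Dg (ZMod p) D' → (∀ y, SatAll (clF F) I ((fun y : Fin n → Bool => y) y) → f y = 0) →
      f ∈ V := by
    intro I f hI hf hy
    exact hVV f (hV03 I f hI (Dg_mono hD'D hf) hy) hf
  have hmem : ∀ {ψ}, ψ ∈ Fml.subsL pi ↔ ∃ b ∈ pi, ψ ∈ Fml.subs b := by
    intro ψ
    unfold Fml.subsL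
    rw [mem_biUnion]
    simp only [List.mem_toFinset]
  have key : ∀ b ∈ pi, ∀ χ ∈ Fml.subs b,
      Pf χ ∈ Dg (ZMod p) d ∧ RelV V (fun y : Fin n → Bool => y) Pf χ ∧ Pf χ * (1 - Pf χ) ∈ V := by
    intro b hb χ hχ
    have h1 := hmem.2 ⟨b, hb, hχ⟩
    obtain ⟨h2, h3, -⟩ := hS.ev χ h1
    exact ⟨Dg_mono hkB h2, hrel χ h1, h3⟩
  have hline : ∀ N : ℕ, ∀ i : Fin pi.length, i.val = N → 1 - Pf (pi.get i) ∈ V := by
    intro N
    induction N using Nat.strong_induction_on with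
    | _ N ih =>
      intro i hi
      rcases hpi i with h1 | ⟨P, hP, hinf⟩
      · obtain ⟨i', hi'⟩ := h1
        have hi'' : Fml.clauseF (F i') = pi.get i := hi'
        rw [← hi'']
        refine clause_ev hV hco F hV3 hBeD hd1 hkB' h2d Pf i' fun χ hχ => ?_
        have h2 := key (pi.get i) (List.get_mem pi i) χ (by rw [← hi'']; exact hχ)
        exact ⟨h2.1, h2.2.1⟩
      · refine sound (sg := fun y : Fin n → Bool => y) hV hcS Pf P (pi.get i) hinf ?_ ?_
        · intro b hb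
          obtain ⟨j, hj, rfl⟩ := hP b hb
          exact ih j.val (by rw [← hi]; exact hj) j rfl
        · rintro χ (hχ | ⟨b, hb, hχ⟩)
          · exact key _ (List.get_mem pi i) χ hχ
          · obtain ⟨j, hj, rfl⟩ := hP b hb
            exact key _ (List.get_mem pi j) χ hχ
  have hall : ∀ b ∈ pi, 1 - Pf b ∈ V := by
    intro b hb
    obtain ⟨i, rfl⟩ := List.mem_iff_get.1 hb
    exact hline _ i rfl
  apply hS.one
  rcases hend with h1 | h1
  · have h2 : Pf (Fml.dnfF F) ∈ V := by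
      refine dnf_ev hV hco F hV3 hBeD hd1 hkB' h2d Pf fun χ hχ => ?_
      have h3 := key _ h1 χ hχ
      exact ⟨h3.1, h3.2.1⟩
    have h3 := V.add_mem (hall _ h1) h2
    rwa [sub_add_cancel] at h3
  · have h2 : Pf (Fml.cst false) ∈ V := by
      have h3 := (key _ h1 _ (self_mem_subs _)).2.1
      have h4 : Pf (Fml.cst false) - indF (fun _ => false) ∈ V := h3
      have h5 : (indF (fun _ => false) : (Fin n → Bool) → ZMod p) = 0 := by
        funext y
        simp [indF]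
      rwa [h5, sub_zero] at h4
    have h3 := V.add_mem (hall _ h1) h2
    rwa [sub_add_cancel] at h3

end Pool.Agent.Work.MP_c04246_lc.R
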