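import Mathlib
import Pool.Agent.Work.MP_c04246_lc.R.RDefs

set_option autoImplicit false

namespace Pool.Agent.Work.MP_c04246_lc

namespace Fml

variable {p : ℕ} {V : Type}

open Classical in
/-- the arguments of a formula, when it is regarded as a (merged) `bin c` -/
noncomputable def args (c : Bool) : Fml p V → Finset (Fml p V)
  | var x => {var x}
  | cst b => {cst b}
  | neg a => {neg a}
  | bin c' a b => if c' = c then args c a ∪ args c b else {bin c' a b}
  | mod i k f => {mod i k f}

/-- The number of (merged) conjunctions and disjunctions on a path, below a connective of the kind
`r` (`some true` is the disjunction, `some false` is the conjunction, `none` is anything else). -/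
def blk : Option Bool → Fml p V → ℕ
  | _, var _ => 0
  | _, cst _ => 0
  | _, neg a => blk none a
  | r, bin c a b => (if r = some c then 0 else 1) + max (blk (some c) a) (blk (some c) b)
  | _, mod _ _ f => Finset.univ.sup fun j => blk none (f j)

open Classical in
/-- the distinct subformulas of the lines of `pi` -/
noncomputable def subsL (pi : List (Fml p V)) : Finset (Fml p V) := pi.toFinset.biUnion subs

open Classical in
/-- the distinct subformulas which are an argument of a (merged) conjunction or disjunction -/
noncomputable def inputs (pi : List (Fml p V)) : Finset (Fml p V) :=
  (subsL pi).filter fun a => ∃ c b b', bin c b b' ∈ subsL pi ∧ a ∈ args c (bin c b b')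

open Classical in
/-- the distinct subformulas of the arguments of conjunctions and disjunctions -/
noncomputable def inner (pi : List (Fml p V)) : Finset (Fml p V) := (inputs pi).biUnion subs

/-- nesting of counting connectives -/
def mh : Fml p V → ℕ
  | var _ => 0
  | cst _ => 0
  | neg a => mh a
  | bin _ a b => max (mh a) (mh b)
  | mod _ _ f => 1 + Finset.univ.sup fun j => mh (f j)

end Fml

end Pool.Agent.Work.MP_c04246_lc
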