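import Pool.Agent.Work.MP_c04246_lc.G.Syn

/-!
MODULE EvN (size S-M). The new evaluation: it agrees with `Pf` on `A`; outside of `A` it is computed at literals, constants,
negations and counting connectives, and by `gv` (arbitrary) at conjunctions and disjunctions.

Proof. `evN_mem`: cases on the formula, `if_pos`. `evN_rel`: cases, `if_neg`. `evN_deg`: induction on `a`, with the bound
`p ^ mh a * T`; for `a ∈ A` use `B ≤ T`; var: `indF (fun y => y x) ∈ Dg 1` (`lit_mem_Dg` in R/EvB or `var_mem_Dg` in R/MonA), `1 ≤ T`; cst: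
`const_mem_Dg`; neg: `1 - _`; bin: hypothesis; mod: `mdA_mem_Dg` and `(p - 1) * (p ^ s * T) ≤ p ^ (1 + s) * T` for
`s = univ.sup (fun j => mh (f j))`; the sum is in `Dg (p ^ s * T)` (`Submodule.sum_mem`, `Dg_mono`); all `f j ∈ A'` by `Cls A'`.
-/

set_option autoImplicit false

namespace Pool.Agent.Work.MP_c04246_lc.R

open Finset

variable {U : Type} [Fintype U] [DecidableEq U] {p : ℕ} [Fact p.Prime]

open Classical in
/-- the new evaluation -/
noncomputable def evN (A : Finset (Fml p U)) (Pf gv : Fml p U → (U → Bool) → ZMod p) :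
    Fml p U → (U → Bool) → ZMod p
  | .var x => if Fml.var x ∈ A then Pf (.var x) else indF (fun y => y x)
  | .cst b => if Fml.cst b ∈ A then Pf (.cst b) else indF (fun _ => b)
  | .neg a => if Fml.neg a ∈ A then Pf (.neg a) else 1 - evN A Pf gv a
  | .bin c a b => if Fml.bin c a b ∈ A then Pf (.bin c a b) else gv (.bin c a b)
  | .mod i k f => if Fml.mod i k f ∈ A then Pf (.mod i k f) else
      mdA (fun r => decide (r = i)) (∑ j, evN A Pf gv (f j))

lemma evN_mem {A : Finset (Fml p U)} (Pf gv : Fml p U → (U → Bool) → ZMod p) {a : Fml p U}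
    (h : a ∈ A) : evN A Pf gv a = Pf a := by
  cases a <;> (rw [evN]; exact if_pos h)

lemma evN_var {A : Finset (Fml p U)} (Pf gv : Fml p U → (U → Bool) → ZMod p) {x : U}
    (h : Fml.var x ∉ A) : evN A Pf gv (.var x) = indF (fun y => y x) := by
  rw [evN]; exact if_neg h

lemma evN_cst {A : Finset (Fml p U)} (Pf gv : Fml p U → (U → Bool) → ZMod p) {b : Bool}
    (h : Fml.cst b ∉ A) : evN A Pf gv (.cst b) = indF (fun _ => b) := by
  rw [evN]; exact if_neg h

lemma evN_neg {A : Finset (Fml p U)} (Pf gv : Fml p U → (U → Bool) → ZMod p) {a : Fml p U}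
    (h : Fml.neg a ∉ A) : evN A Pf gv (.neg a) = 1 - evN A Pf gv a := by
  rw [evN]; exact if_neg h

lemma evN_bin {A : Finset (Fml p U)} (Pf gv : Fml p U → (U → Bool) → ZMod p) {c : Bool}
    {a b : Fml p U} (h : Fml.bin c a b ∉ A) : evN A Pf gv (.bin c a b) = gv (.bin c a b) := by
  rw [evN]; exact if_neg h

lemma evN_mod {A : Finset (Fml p U)} (Pf gv : Fml p U → (U → Bool) → ZMod p) {i : ZMod p} {k : ℕ}
    {f : Fin k → Fml p U} (h : Fml.mod i k f ∉ A) :
    evN A Pf gv (.mod i k f) = mdA (fun r => decide (r = i)) (∑ j, evN A Pf gv (f j)) := by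
  rw [evN]; exact if_neg h

private lemma evN_deg_aux {A A' : Finset (Fml p U)} {Pf gv : Fml p U → (U → Bool) → ZMod p}
    {B T : ℕ} (hA' : Cls A') (hPf : ∀ a ∈ A, Pf a ∈ Dg (ZMod p) B) (hB : B ≤ T) (hT : 1 ≤ T)
    (hgv : ∀ c a b, Fml.bin c a b ∈ A' → Fml.bin c a b ∉ A → gv (.bin c a b) ∈ Dg (ZMod p) T)
    (a : Fml p U) : a ∈ A' → evN A Pf gv a ∈ Dg (ZMod p) (p ^ Fml.mh a * T) := by
  have hp : 1 ≤ p := (Fact.out : p.Prime).one_lt.le
  have hle : ∀ m : ℕ, T ≤ p ^ m * T := fun m =>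
    Nat.le_mul_of_pos_left T (Nat.pow_pos hp)
  have hmem : ∀ b : Fml p U, b ∈ A → ∀ m, evN A Pf gv b ∈ Dg (ZMod p) (p ^ m * T) := by
    intro b hb m
    rw [evN_mem Pf gv hb]
    exact Dg_mono (hB.trans (hle m)) (hPf b hb)
  induction a with
  | var x =>
    intro _
    by_cases h : Fml.var x ∈ A
    · exact hmem _ h _
    · rw [evN_var Pf gv h]
      exact Dg_mono (hT.trans (hle _)) (var_mem_Dg x true)
  | cst b =>
    intro _
    by_cases h : Fml.cst b ∈ A
    · exact hmem _ h _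
    · rw [evN_cst Pf gv h]
      exact const_mem_Dg (if b = true then 1 else 0) _
  | neg a ih =>
    intro ha
    by_cases h : Fml.neg a ∈ A
    · exact hmem _ h _
    · rw [evN_neg Pf gv h]
      have h1 : a ∈ A' := hA' _ ha a (by
        simp only [Fml.subs, mem_insert]
        exact Or.inr (self_mem_subs a))
      have h2 := ih h1
      have h3 : Fml.mh (Fml.neg a) = Fml.mh a := by simp only [Fml.mh]
      rw [h3]
      exact Submodule.sub_mem _ (one_mem_Dg _) h2
  | bin c a b _ _ =>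
    intro ha
    by_cases h : Fml.bin c a b ∈ A
    · exact hmem _ h _
    · rw [evN_bin Pf gv h]
      exact Dg_mono (hle _) (hgv c a b ha h)
  | mod i k f ih =>
    intro ha
    by_cases h : Fml.mod i k f ∈ A
    · exact hmem _ h _
    · rw [evN_mod Pf gv h]
      set s : ℕ := Finset.univ.sup fun j => Fml.mh (f j) with hs
      have h1 : ∀ j, evN A Pf gv (f j) ∈ Dg (ZMod p) (p ^ s * T) := by
        intro j
        have h2 : f j ∈ A' := hA' _ ha (f j) (by
          simp only [Fml.subs, mem_insert, mem_biUnion, mem_univ, true_and]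
          exact Or.inr ⟨j, self_mem_subs (f j)⟩)
        refine Dg_mono ?_ (ih j h2)
        apply Nat.mul_le_mul_right
        apply Nat.pow_le_pow_right hp
        exact Finset.le_sup (f := fun j => Fml.mh (f j)) (mem_univ j)
      have h3 : (∑ j, evN A Pf gv (f j)) ∈ Dg (ZMod p) (p ^ s * T) :=
        Submodule.sum_mem _ fun j _ => h1 j
      have h4 : Fml.mh (Fml.mod i k f) = 1 + s := by simp only [Fml.mh, hs]
      rw [h4]
      refine Dg_mono ?_ (mdA_mem_Dg (fun r => decide (r = i)) h3)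
      have h5 : p ^ (1 + s) * T = p * (p ^ s * T) := by ring
      rw [h5]
      exact Nat.mul_le_mul_right _ (Nat.sub_le p 1)

lemma evN_deg {A A' : Finset (Fml p U)} {Pf gv : Fml p U → (U → Bool) → ZMod p} {B T dep : ℕ}
    (hA' : Cls A') (hPf : ∀ a ∈ A, Pf a ∈ Dg (ZMod p) B) (hB : B ≤ T) (hT : 1 ≤ T)
    (hgv : ∀ c a b, Fml.bin c a b ∈ A' → Fml.bin c a b ∉ A → gv (.bin c a b) ∈ Dg (ZMod p) T)
    (hdep : ∀ a ∈ A', Fml.mh a ≤ dep) :
    ∀ a ∈ A', evN A Pf gv a ∈ Dg (ZMod p) (p ^ dep * T) := by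
  intro a ha
  refine Dg_mono ?_ (evN_deg_aux hA' hPf hB hT hgv a ha)
  exact Nat.mul_le_mul_right _
    (Nat.pow_le_pow_right (Fact.out : p.Prime).one_lt.le (hdep a ha))

end Pool.Agent.Work.MP_c04246_lc.R
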