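import Pool.Agent.Work.MP_c04246_lc.G.Ba

/-!
MODULE Num (size M). The choice of the parameters (pure arithmetic; only `dl` from G/Ba.lean is used).

Proof. Write `d i = dl E R i`; it is increasing in `i`, `d i ≥ 1`, and `d i = E ^ (2^(i+1) - 1) * R ^ (2^i - 1)` (induction). For `x = 2 * G * lw`:
`(x / (R * d i) + 1) * d i ≤ x / R + d i` (`x / (R * y) = x / R / y`, `Nat.div_mul_le_self`). In both cases `c = 2 * G * lw / R + d a`.
Constants: `d1 = E ^ (2^(a+1) - 1)`, `C1 = 8 * c3 * (2 * a + 2 + c5 * d1) + 1`, `n0 = 8 * c3 * (a + 1 + c5) * d1 + 1`,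
`C = 8 * (c3 + 1) * (a + 1 + c5) * E ^ (2^(a+2)) * (2 * C1) ^ (2^(a+1))` (or anything larger).
Case B, `C1 * G * lw < n`: `R = 1`, `d a = d1`, `t = G + 1`, `m = 0`:
`a * (2 * G * lw + d1) + c5 * ((G + 1) * d1) ≤ (2 * a + c5 * d1) * n / C1 + (a + c5) * d1 ≤ n / c3 ≤ D` (`G ≤ G * lw`).
Case A, `n ≤ C1 * G * lw`: `R = C1 * G * lw / n + 1`, so `C1 * G * lw < R * n ≤ 2 * C1 * G * lw`; `t = C1 * G * lm * d a / n + 1`,
`m = 2 * G * lm / t + 1`, so `2 * G * lm ≤ m * t`. Real numbers: `2 G lw / R ≤ 2 n / C1`; `m * d a ≤ 2 G lm (d a) / t + d a ≤ 2 n / C1 + d a`. The total is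
at most `2 (a + 1) n / C1 + (a + 1 + c5) * t * d a`, and `t * d a ≤ C1 G lm (d a)^2 / n + d a ≤ 2 C1 G lm (d a)^2 / n`, as
`C1 G lm ≥ C1 G lw ≥ n` and `d a ≤ (d a)^2`. Now `(d a)^2 = E^(2^(a+2) - 2) R^(2^(a+1) - 2)`, `R ≤ 2 C1 G lw / n`, so
`C1 G lm (d a)^2 / n ≤ E^(2^(a+2)) (2 C1)^(2^(a+1) - 1) G^(2^(a+1) - 1) lw^(2^(a+1) - 2) lm / n^(2^(a+1) - 1) < E^(..) (2 C1)^(..) n / C` by
the hypothesis. So the total is `≤ n / (4 c3) + n / (4 c3) ≤ D`. (If `c3 = 0` then `n ≤ 0 < n0`.)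
-/

set_option autoImplicit false

namespace Pool.Agent.Work.MP_c04246_lc.R

private theorem nm_pos {E R : ℕ} (hE : 1 ≤ E) (hR : 1 ≤ R) (j : ℕ) : 1 ≤ dl E R j := by
  induction j with
  | zero => exact hE
  | succ j ih =>
    show 1 ≤ E * (R * dl E R j * dl E R j)
    exact Nat.mul_pos hE (Nat.mul_pos (Nat.mul_pos hR ih) ih)

private theorem nm_succ {E R : ℕ} (hE : 1 ≤ E) (hR : 1 ≤ R) (j : ℕ) :
    dl E R j ≤ dl E R (j + 1) := by
  show dl E R j ≤ E * (R * dl E R j * dl E R j)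
  have h := nm_pos hE hR j
  have h1 : 1 ≤ R * dl E R j := Nat.mul_pos hR h
  calc dl E R j ≤ (R * dl E R j) * dl E R j := Nat.le_mul_of_pos_left _ h1
    _ ≤ E * (R * dl E R j * dl E R j) := Nat.le_mul_of_pos_left _ hE

private theorem nm_mono {E R : ℕ} (hE : 1 ≤ E) (hR : 1 ≤ R) : Monotone (dl E R) :=
  monotone_nat_of_le_succ (nm_succ hE hR)

private theorem nm_eq (E R : ℕ) (j : ℕ) :
    dl E R j = E ^ (2 ^ (j + 1) - 1) * R ^ (2 ^ j - 1) := by
  induction j with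
  | zero =>
    show E = E ^ (2 ^ (0 + 1) - 1) * R ^ (2 ^ 0 - 1)
    norm_num
  | succ j ih =>
    show E * (R * dl E R j * dl E R j) = _
    have h1 : 1 ≤ 2 ^ j := Nat.one_le_two_pow
    obtain ⟨u, hu⟩ : ∃ u, 2 ^ (j + 1) - 1 = u := ⟨_, rfl⟩
    obtain ⟨v, hv⟩ : ∃ v, 2 ^ j - 1 = v := ⟨_, rfl⟩
    have e1 : 2 ^ (j + 1 + 1) - 1 = 1 + (u + u) := by
      rw [← hu, pow_succ, pow_succ]
      omega
    have e2 : 2 ^ (j + 1) - 1 = 1 + (v + v) := by
      rw [← hv, pow_succ]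
      omega
    rw [hu, hv] at ih
    rw [ih, e1, e2]
    ring

/-- the square of `d a` -/
private theorem nm_sq (E R a : ℕ) :
    dl E R a * dl E R a = E ^ (2 ^ (a + 2) - 2) * R ^ (2 ^ (a + 1) - 2) := by
  rw [nm_eq]
  have h1 : 1 ≤ 2 ^ a := Nat.one_le_two_pow
  have e1 : 2 ^ (a + 2) - 2 = (2 ^ (a + 1) - 1) + (2 ^ (a + 1) - 1) := by
    rw [pow_succ, pow_succ]
    omega
  have e2 : 2 ^ (a + 1) - 2 = (2 ^ a - 1) + (2 ^ a - 1) := by
    rw [pow_succ]
    omega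
  rw [e1, e2, pow_add E, pow_add R]
  ring

/-- the bound for `c` -/
private theorem nm_c {E R : ℕ} (hE : 1 ≤ E) (hR : 1 ≤ R) (a x : ℕ) : ∀ i < a,
    (x / (R * dl E R i) + 1) * dl E R i ≤ x / R + dl E R a := by
  intro i hi
  have h1 : x / (R * dl E R i) * dl E R i ≤ x / R := by
    rw [← Nat.div_div_eq_div_mul]
    exact Nat.div_mul_le_self _ _
  have h2 := nm_mono hE hR hi.le
  rw [add_mul, one_mul]
  exact Nat.add_le_add h1 h2

theorem numT (E a c5 c3 : ℕ) (hE : 1 ≤ E) : ∃ C n0 : ℕ, ∀ n D G lw lm : ℕ, n0 ≤ n →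
    n ≤ c3 * D → 1 ≤ lw → lw ≤ lm →
    C * (G ^ (2 ^ (a + 1) - 1) * lw ^ (2 ^ (a + 1) - 2) * lm) < n ^ 2 ^ (a + 1) →
    ∃ R c t m : ℕ, 1 ≤ R ∧ 1 ≤ t ∧
      (∀ i < a, (2 * G * lw / (R * dl E R i) + 1) * dl E R i ≤ c) ∧
      (2 * G * lm ≤ m * t ∨ G ≤ t) ∧
      a * c + m * dl E R a + c5 * (t * dl E R a) ≤ D := by
  obtain ⟨d1, hd1⟩ : ∃ d1, d1 = E ^ (2 ^ (a + 1) - 1) := ⟨_, rfl⟩
  obtain ⟨C1, hC1⟩ : ∃ C1, C1 = 8 * c3 * (2 * a + 2 + c5 * d1) + 1 := ⟨_, rfl⟩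
  refine ⟨8 * (c3 + 1) * (a + 1 + c5) * (E ^ (2 ^ (a + 2) - 2) * (2 * C1) ^ (2 ^ (a + 1) - 1)),
    8 * c3 * (a + 1 + c5) * d1 + 1, ?_⟩
  intro n D G lw lm hn hnD hlw hlm hmain
  have hn1 : 1 ≤ n := by omega
  have hc3 : 1 ≤ c3 := by
    rcases Nat.eq_zero_or_pos c3 with h | h
    · rw [h, zero_mul] at hnD
      omega
    · exact h
  have hfin : ∀ T, c3 * T ≤ n → T ≤ D := by
    intro T hT
    exact Nat.le_of_mul_le_mul_left (hT.trans hnD) hc3
  have hC1p : 1 ≤ C1 := by omega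
  rcases Nat.lt_or_ge (C1 * G * lw) n with hB | hA
  · -- case B
    have hda : dl E 1 a = d1 := by
      rw [nm_eq, one_pow, mul_one, hd1]
    refine ⟨1, 2 * G * lw / 1 + dl E 1 a, G + 1, 0, le_rfl, by omega, nm_c hE le_rfl a _,
      Or.inr (by omega), ?_⟩
    apply hfin
    rw [hda, Nat.div_one, zero_mul, add_zero]
    have hGG : G ≤ G * lw := Nat.le_mul_of_pos_right _ hlw
    have h1 : c5 * d1 * G ≤ c5 * d1 * (G * lw) := Nat.mul_le_mul_left _ hGG
    have h2 : a * (2 * G * lw + d1) + c5 * ((G + 1) * d1) ≤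
        (2 * a + c5 * d1) * (G * lw) + (a + c5) * d1 := by
      calc a * (2 * G * lw + d1) + c5 * ((G + 1) * d1)
          = 2 * a * (G * lw) + c5 * d1 * G + (a + c5) * d1 := by ring
        _ ≤ 2 * a * (G * lw) + c5 * d1 * (G * lw) + (a + c5) * d1 := by omega
        _ = (2 * a + c5 * d1) * (G * lw) + (a + c5) * d1 := by ring
    have h3 : 8 * c3 * ((2 * a + c5 * d1) * (G * lw)) ≤ n := by
      calc 8 * c3 * ((2 * a + c5 * d1) * (G * lw))
          = (8 * c3 * (2 * a + c5 * d1)) * (G * lw) := by ring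
        _ ≤ C1 * (G * lw) := by
            refine Nat.mul_le_mul_right _ ?_
            rw [hC1]
            have : 8 * c3 * (2 * a + c5 * d1) ≤ 8 * c3 * (2 * a + 2 + c5 * d1) :=
              Nat.mul_le_mul_left _ (by omega)
            omega
        _ = C1 * G * lw := by ring
        _ ≤ n := hB.le
    have h4 : 8 * c3 * ((a + c5) * d1) ≤ n := by
      calc 8 * c3 * ((a + c5) * d1) ≤ 8 * c3 * ((a + 1 + c5) * d1) :=
            Nat.mul_le_mul_left _ (Nat.mul_le_mul_right _ (by omega))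
        _ = 8 * c3 * (a + 1 + c5) * d1 := by ring
        _ ≤ n := by omega
    have h5 : 8 * (c3 * (a * (2 * G * lw + d1) + c5 * ((G + 1) * d1))) ≤ 2 * n := by
      calc 8 * (c3 * (a * (2 * G * lw + d1) + c5 * ((G + 1) * d1)))
          ≤ 8 * (c3 * ((2 * a + c5 * d1) * (G * lw) + (a + c5) * d1)) :=
            Nat.mul_le_mul_left _ (Nat.mul_le_mul_left _ h2)
        _ = 8 * c3 * ((2 * a + c5 * d1) * (G * lw)) + 8 * c3 * ((a + c5) * d1) := by ring
        _ ≤ 2 * n := by omega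
    omega
  · -- case A
    obtain ⟨R, hR⟩ : ∃ R, R = C1 * G * lw / n + 1 := ⟨_, rfl⟩
    have hR1 : 1 ≤ R := by rw [hR]; exact Nat.succ_pos _
    have hRn : C1 * G * lw < R * n := by
      rw [hR, add_mul, one_mul]
      exact Nat.lt_div_mul_add hn1
    have hRn2 : R * n ≤ 2 * C1 * G * lw := by
      rw [hR, add_mul, one_mul]
      have h1 := Nat.div_mul_le_self (C1 * G * lw) n
      have h2 : 2 * C1 * G * lw = C1 * G * lw + C1 * G * lw := by ring
      omega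
    obtain ⟨d, hd⟩ : ∃ d, d = dl E R a := ⟨_, rfl⟩
    have hdp : 1 ≤ d := by rw [hd]; exact nm_pos hE hR1 a
    obtain ⟨t, ht⟩ : ∃ t, t = C1 * G * lm * d / n + 1 := ⟨_, rfl⟩
    have ht1 : 1 ≤ t := by rw [ht]; exact Nat.succ_pos _
    have htn : C1 * G * lm * d < t * n := by
      rw [ht, add_mul, one_mul]
      exact Nat.lt_div_mul_add hn1
    obtain ⟨m, hm⟩ : ∃ m, m = 2 * G * lm / t + 1 := ⟨_, rfl⟩
    have hmt : 2 * G * lm ≤ m * t := by
      rw [hm, add_mul, one_mul]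
      exact (Nat.lt_div_mul_add ht1).le
    refine ⟨R, 2 * G * lw / R + dl E R a, t, m, hR1, ht1, nm_c hE hR1 a _, Or.inl hmt, ?_⟩
    rw [← hd]
    apply hfin
    -- 2 G lw / R ≤ 2 n / C1
    have h1 : C1 * (2 * G * lw / R) ≤ 2 * n := by
      have h2 := Nat.div_mul_le_self (2 * G * lw) R
      have h3 : R * (C1 * (2 * G * lw / R)) ≤ R * (2 * n) := by
        calc R * (C1 * (2 * G * lw / R)) = C1 * (2 * G * lw / R * R) := by ring
          _ ≤ C1 * (2 * G * lw) := Nat.mul_le_mul_left _ h2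
          _ = 2 * (C1 * G * lw) := by ring
          _ ≤ 2 * (R * n) := Nat.mul_le_mul_left _ hRn.le
          _ = R * (2 * n) := by ring
      exact Nat.le_of_mul_le_mul_left h3 hR1
    -- m d ≤ 2 n / C1 + d
    have h2 : C1 * (m * d) ≤ 2 * n + C1 * d := by
      have h3 := Nat.div_mul_le_self (2 * G * lm) t
      have h4 : t * (C1 * (2 * G * lm / t * d)) ≤ t * (2 * n) := by
        calc t * (C1 * (2 * G * lm / t * d)) = C1 * d * (2 * G * lm / t * t) := by ring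
          _ ≤ C1 * d * (2 * G * lm) := Nat.mul_le_mul_left _ h3
          _ = 2 * (C1 * G * lm * d) := by ring
          _ ≤ 2 * (t * n) := Nat.mul_le_mul_left _ htn.le
          _ = t * (2 * n) := by ring
      have h5 := Nat.le_of_mul_le_mul_left h4 ht1
      rw [hm]
      calc C1 * ((2 * G * lm / t + 1) * d) = C1 * (2 * G * lm / t * d) + C1 * d := by ring
        _ ≤ 2 * n + C1 * d := by omega
    -- the main term
    have h3 : n * (t * d) ≤ 2 * (C1 * G * lm * (d * d)) := by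
      have h4 := Nat.div_mul_le_self (C1 * G * lm * d) n
      have h5 : t * n ≤ C1 * G * lm * d + n := by
        rw [ht, add_mul, one_mul]
        omega
      have h6 : n ≤ C1 * G * lm := hA.trans (Nat.mul_le_mul_left _ hlm)
      have h7 : n * d ≤ C1 * G * lm * (d * d) := by
        calc n * d ≤ C1 * G * lm * d := Nat.mul_le_mul_right _ h6
          _ ≤ C1 * G * lm * (d * d) := Nat.mul_le_mul_left _ (Nat.le_mul_of_pos_left _ hdp)
      calc n * (t * d) = (t * n) * d := by ring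
        _ ≤ (C1 * G * lm * d + n) * d := Nat.mul_le_mul_right _ h5
        _ = C1 * G * lm * (d * d) + n * d := by ring
        _ ≤ 2 * (C1 * G * lm * (d * d)) := by omega
    have hMp : 2 ^ (a + 1) - 1 = (2 ^ (a + 1) - 2) + 1 := by
      have : 1 ≤ 2 ^ a := Nat.one_le_two_pow
      rw [pow_succ]
      omega
    have hMp2 : 2 ^ (a + 1) = (2 ^ (a + 1) - 1) + 1 := by
      have : 1 ≤ 2 ^ a := Nat.one_le_two_pow
      rw [pow_succ]
      omega
    obtain ⟨Q, hQ⟩ : ∃ Q, Q = G ^ (2 ^ (a + 1) - 1) * lw ^ (2 ^ (a + 1) - 2) * lm := ⟨_, rfl⟩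
    rw [← hQ] at hmain
    have h4 : n ^ (2 ^ (a + 1) - 1) * (t * d) ≤
        E ^ (2 ^ (a + 2) - 2) * (2 * C1) ^ (2 ^ (a + 1) - 1) * Q := by
      have h5 : (R * n) ^ (2 ^ (a + 1) - 2) ≤ (2 * C1 * G * lw) ^ (2 ^ (a + 1) - 2) :=
        Nat.pow_le_pow_left hRn2 _
      have hsq : d * d = E ^ (2 ^ (a + 2) - 2) * R ^ (2 ^ (a + 1) - 2) := by
        rw [hd]; exact nm_sq E R a
      calc n ^ (2 ^ (a + 1) - 1) * (t * d)
          = n ^ (2 ^ (a + 1) - 2) * (n * (t * d)) := by rw [hMp, pow_succ]; ring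
        _ ≤ n ^ (2 ^ (a + 1) - 2) * (2 * (C1 * G * lm * (d * d))) := Nat.mul_le_mul_left _ h3
        _ = 2 * C1 * G * lm * E ^ (2 ^ (a + 2) - 2) * (R * n) ^ (2 ^ (a + 1) - 2) := by
            rw [hsq, mul_pow]; ring
        _ ≤ 2 * C1 * G * lm * E ^ (2 ^ (a + 2) - 2) * (2 * C1 * G * lw) ^ (2 ^ (a + 1) - 2) :=
            Nat.mul_le_mul_left _ h5
        _ = E ^ (2 ^ (a + 2) - 2) * (2 * C1) ^ (2 ^ (a + 1) - 1) * Q := by
            rw [hQ, hMp, pow_succ (2 * C1), pow_succ G, mul_pow, mul_pow (2 * C1)]; ring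
    have h5 : 8 * (c3 + 1) * (a + 1 + c5) * (t * d) ≤ n := by
      have hnp : 0 < n ^ (2 ^ (a + 1) - 1) := Nat.pow_pos hn1
      refine Nat.le_of_mul_le_mul_left ?_ hnp
      calc n ^ (2 ^ (a + 1) - 1) * (8 * (c3 + 1) * (a + 1 + c5) * (t * d))
          = 8 * (c3 + 1) * (a + 1 + c5) * (n ^ (2 ^ (a + 1) - 1) * (t * d)) := by ring
        _ ≤ 8 * (c3 + 1) * (a + 1 + c5) *
            (E ^ (2 ^ (a + 2) - 2) * (2 * C1) ^ (2 ^ (a + 1) - 1) * Q) :=
            Nat.mul_le_mul_left _ h4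
        _ = 8 * (c3 + 1) * (a + 1 + c5) *
            (E ^ (2 ^ (a + 2) - 2) * (2 * C1) ^ (2 ^ (a + 1) - 1)) * Q := by ring
        _ ≤ n ^ 2 ^ (a + 1) := hmain.le
        _ = n ^ (2 ^ (a + 1) - 1) * n := by
            conv_lhs => rw [hMp2, pow_succ]
    have h6 : 8 * c3 * ((a + 1 + c5) * (t * d)) ≤ n := by
      refine le_trans ?_ h5
      calc 8 * c3 * ((a + 1 + c5) * (t * d)) ≤ 8 * (c3 + 1) * ((a + 1 + c5) * (t * d)) :=
            Nat.mul_le_mul_right _ (by omega)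
        _ = 8 * (c3 + 1) * (a + 1 + c5) * (t * d) := by ring
    -- total
    have htd : d ≤ t * d := Nat.le_mul_of_pos_left _ ht1
    have h7 : C1 * (a * (2 * G * lw / R + d) + m * d + c5 * (t * d)) ≤
        2 * (a + 1) * n + C1 * ((a + 1 + c5) * (t * d)) := by
      calc C1 * (a * (2 * G * lw / R + d) + m * d + c5 * (t * d))
          = a * (C1 * (2 * G * lw / R)) + a * (C1 * d) + C1 * (m * d) + C1 * (c5 * (t * d)) := by
            ring
        _ ≤ a * (2 * n) + a * (C1 * d) + (2 * n + C1 * d) + C1 * (c5 * (t * d)) := by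
            have := Nat.mul_le_mul_left a h1
            omega
        _ = 2 * (a + 1) * n + C1 * ((a + 1) * d + c5 * (t * d)) := by ring
        _ ≤ 2 * (a + 1) * n + C1 * ((a + 1) * (t * d) + c5 * (t * d)) := by
            refine Nat.add_le_add_left (Nat.mul_le_mul_left _ ?_) _
            exact Nat.add_le_add_right (Nat.mul_le_mul_left _ htd) _
        _ = 2 * (a + 1) * n + C1 * ((a + 1 + c5) * (t * d)) := by ring
    have h8 : 8 * c3 * (2 * (a + 1) * n) ≤ C1 * n := by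
      calc 8 * c3 * (2 * (a + 1) * n) = (8 * c3 * (2 * a + 2)) * n := by ring
        _ ≤ C1 * n := by
            refine Nat.mul_le_mul_right _ ?_
            rw [hC1]
            have : 8 * c3 * (2 * a + 2) ≤ 8 * c3 * (2 * a + 2 + c5 * d1) :=
              Nat.mul_le_mul_left _ (by omega)
            omega
    obtain ⟨T, hT⟩ : ∃ T, T = a * (2 * G * lw / R + d) + m * d + c5 * (t * d) := ⟨_, rfl⟩
    rw [← hT] at h7 ⊢
    have h9 : C1 * (8 * (c3 * T)) ≤ C1 * (2 * n) := by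
      calc C1 * (8 * (c3 * T)) = 8 * c3 * (C1 * T) := by ring
        _ ≤ 8 * c3 * (2 * (a + 1) * n + C1 * ((a + 1 + c5) * (t * d))) :=
            Nat.mul_le_mul_left _ h7
        _ = 8 * c3 * (2 * (a + 1) * n) + C1 * (8 * c3 * ((a + 1 + c5) * (t * d))) := by ring
        _ ≤ C1 * n + C1 * n := Nat.add_le_add h8 (Nat.mul_le_mul_left _ h6)
        _ = C1 * (2 * n) := by ring
    have h10 := Nat.le_of_mul_le_mul_left h9 hC1p
    omega

end Pool.Agent.Work.MP_c04246_lc.R
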