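import Pool.Agent.Work.MP_c04246_lc.G.Ctr
import Pool.Agent.Work.MP_c04246_lc.G.Num

/-!
MODULE Fi1 (size S-M). The bound for expanding CNFs.

Proof. `E = p ^ dep`, `c5 = (9 * p + cS p K + 2) * (k + 1) * p ^ dep`, `q = 3 * e * (k * e + 1) ≥ 1`, `c3 = 2 * ρ * q`; `C, n0` from
`numT E a c5 c3`; `D = r / q`, so `3 * (e * D * (k * e + 1)) = q * D ≤ r` and `r ≤ 2 * q * D` if `q ≤ r`; `n ≤ ρ * r ≤ c3 * D`. Final constants:
`C + n0 ^ 2 ^ (a + 1)`.. precisely: take `C`, and `r0 = q`, and assume `n0 ≤ n` as hypothesis. Suppose the inequality fails; `numT` with `G = (inputs pi).card`,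
`lw = Nat.log 2 (inner pi).card + 1`, `lm = Nat.log 2 (subsL pi).card + 1` (`inner_sub`, `Nat.log_mono_right`) gives the parameters, and `no_ref` is a
contradiction.
-/

set_option autoImplicit false

namespace Pool.Agent.Work.MP_c04246_lc.R

open Finset

theorem main_T_exp (k e ρ : ℕ) (he : 1 ≤ e) (p : ℕ) [Fact p.Prime] (K dep a : ℕ) :
    ∃ C r0 n0 : ℕ, ∀ (n m : ℕ) (F : Fin m → Fin k → Fin n × Bool) (r : ℕ), r0 ≤ r → n0 ≤ n →
      n ≤ ρ * r → Expn (clF F) r e →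
      ∀ pi : List (Fml p (Fin n)), Fml.IsDer K (Set.range fun i => Fml.clauseF (F i)) pi →
        (Fml.dnfF F ∈ pi ∨ Fml.cst false ∈ pi) →
        (∀ b ∈ pi, Fml.depth b ≤ dep ∧ Fml.blk none b ≤ a + 1) →
        n ^ 2 ^ (a + 1) ≤ C * ((Fml.inputs pi).card ^ (2 ^ (a + 1) - 1) *
          (Nat.log 2 (Fml.inner pi).card + 1) ^ (2 ^ (a + 1) - 2) *
          (Nat.log 2 (Fml.subsL pi).card + 1)) := by
  have hp2 := (Fact.out : p.Prime).two_le
  have hpd : 1 ≤ p ^ dep := Nat.one_le_pow _ _ (by omega)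
  obtain ⟨q, hq⟩ : ∃ q, q = 3 * e * (k * e + 1) := ⟨_, rfl⟩
  have hq1 : 1 ≤ q := by
    rw [hq]
    exact Nat.mul_pos (Nat.mul_pos (by norm_num) he) (Nat.succ_pos _)
  obtain ⟨C, n0, hC⟩ :=
    numT (p ^ dep) a ((9 * p + cS p K + 2) * (k + 1) * p ^ dep) (2 * ρ * q) hpd
  refine ⟨C, q, n0, ?_⟩
  intro n m F r hr hn hnr hE pi hpi hend hb
  by_contra hlt
  rw [not_le] at hlt
  have hD1 : 3 * (e * (r / q) * (k * e + 1)) ≤ r := by
    calc 3 * (e * (r / q) * (k * e + 1)) = q * (r / q) := by rw [hq]; ring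
      _ ≤ r := Nat.mul_div_le r q
  have hD2 : n ≤ 2 * ρ * q * (r / q) := by
    have h1 : r < q * (r / q) + q := by
      have := Nat.lt_mul_div_succ r hq1
      rw [mul_add, mul_one] at this
      exact this
    have h2 : 1 ≤ r / q := Nat.div_pos hr hq1
    have h3 : q ≤ q * (r / q) := Nat.le_mul_of_pos_right _ h2
    calc n ≤ ρ * r := hnr
      _ ≤ ρ * (2 * (q * (r / q))) := Nat.mul_le_mul_left _ (by omega)
      _ = 2 * ρ * q * (r / q) := by ring
  obtain ⟨R, c, t, m', hR, ht, hc, hm, hD⟩ := hC n (r / q) (Fml.inputs pi).card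
    (Nat.log 2 (Fml.inner pi).card + 1) (Nat.log 2 (Fml.subsL pi).card + 1) hn hD2
    (Nat.succ_le_succ (Nat.zero_le _))
    (Nat.succ_le_succ (Nat.log_mono_right (card_le_card (inner_sub pi)))) hlt
  exact no_ref k e he p K dep a n m F r (r / q) hE hD1 pi hpi hend (fun l hl => (hb l hl).2)
    (fun l hl => (hb l hl).1) R c t m' hR ht hc hm hD

end Pool.Agent.Work.MP_c04246_lc.R
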