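import Pool.Agent.Work.MP_c04246_lc.G.Stp

/-!
MODULE Itr (size M). All levels.

Proof. `E = p ^ dep`, `lev j = (inner pi).filter (blk none a ≤ j)` (classical), closed under subformulas by `cls_inner`, `blk_subs`.
`lev` (private lemma, induction on `j`): if `∀ i < j, (2 * G * lw / (R * dl E R i) + 1) * dl E R i ≤ c` and `j * c + 4 * p * dl E R j ≤ D` then there are `V'`, `Pf` with
`St V' (D - j * c) (dl E R j) (lev j) Pf` and `g ∈ V → g ∈ Dg (D - j * c) → g ∈ V'`.
 `j = 0`: `step` with `A = ∅` (`St V D 1 ∅ Pf` is trivial), `B = 1`, `A' = lev 0`, `Inp = ∅`, `t = 1`, `m = 0`: no `bin` has `blk none = 0`;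
 `p ^ dep * (1 * 1) = dl E R 0`.
 `j → j + 1`: the hypotheses for `j` hold as `dl E R j ≤ dl E R (j+1)`. `step` with `A = lev j`, `B = dl E R j`, `A' = lev (j+1)`, `Inp = inputs pi`,
 `t = R * dl E R j`, `m = 2 * G * lw / t + 1`; `2 * G * (log (lev (j+1)).card + 1) ≤ 2 * G * lw ≤ m * t`; a new `bin c a b` has `blk none = j + 1`, so its
 arguments have `blk none ≤ j` (`blk_args`), they are in `inner` (`args_inputs`, `inputs_sub`; `bin c a b ∈ inner ⊆ subsL`).
 `m * dl E R j ≤ c`, so `D - j * c - m * dl ≥ D - (j + 1) * c`; `ClV` is monotone in `D`, so `St` is monotone in `D`.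
Then the last stage: `lev a = inner pi` if `∀ l ∈ pi, blk none l ≤ a + 1` (`blk_inner`). `step` with `A = inner pi`, `A' = subsL pi`, `Inp = inputs pi`,
`B = dl E R a`, `t`, `m` the given ones. A new `bin` is in `subsL`: its arguments are inputs.
-/

set_option autoImplicit false

namespace Pool.Agent.Work.MP_c04246_lc.R

open Finset

variable {U : Type} [Fintype U] [DecidableEq U] {p : ℕ} [Fact p.Prime]

open Classical in
/-- the level `j` of the subformulas of the arguments -/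
private noncomputable def lev (pi : List (Fml p U)) (j : ℕ) : Finset (Fml p U) :=
  (Fml.inner pi).filter (fun a => Fml.blk none a ≤ j)

omit [Fintype U] [DecidableEq U] [Fact p.Prime] in
private lemma mem_lev {pi : List (Fml p U)} {j : ℕ} {a : Fml p U} :
    a ∈ lev pi j ↔ a ∈ Fml.inner pi ∧ Fml.blk none a ≤ j := by
  unfold lev
  rw [mem_filter]

omit [Fintype U] [DecidableEq U] [Fact p.Prime] in
private lemma cls_lev (pi : List (Fml p U)) (j : ℕ) : Cls (lev pi j) := by
  intro a ha b hb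
  rw [mem_lev] at ha ⊢
  exact ⟨cls_inner pi a ha.1 b hb, (blk_subs hb).trans ha.2⟩

omit [Fintype U] [DecidableEq U] [Fact p.Prime] in
private lemma mh_subsL {pi : List (Fml p U)} {dep : ℕ} (hdep : ∀ l ∈ pi, Fml.depth l ≤ dep)
    {a : Fml p U} (ha : a ∈ Fml.subsL pi) : Fml.mh a ≤ dep := by
  classical
  unfold Fml.subsL at ha
  rw [mem_biUnion] at ha
  obtain ⟨l, hl, hal⟩ := ha
  rw [List.mem_toFinset] at hl
  exact ((mh_subs hal).trans (mh_le_depth l)).trans (hdep l hl)

omit [Fintype U] [DecidableEq U] [Fact p.Prime] in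
private lemma dl_pos {E R : ℕ} (hE : 1 ≤ E) (hR : 1 ≤ R) (j : ℕ) : 1 ≤ dl E R j := by
  induction j with
  | zero => exact hE
  | succ j ih =>
    show 1 ≤ E * (R * dl E R j * dl E R j)
    exact Nat.mul_pos hE (Nat.mul_pos (Nat.mul_pos hR ih) ih)

omit [Fintype U] [DecidableEq U] [Fact p.Prime] in
private lemma dl_mono {E R : ℕ} (hE : 1 ≤ E) (hR : 1 ≤ R) (j : ℕ) :
    dl E R j ≤ dl E R (j + 1) := by
  show dl E R j ≤ E * (R * dl E R j * dl E R j)
  have h := dl_pos hE hR j
  have h1 : 1 ≤ R * dl E R j := Nat.mul_pos hR h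
  calc dl E R j ≤ (R * dl E R j) * dl E R j := Nat.le_mul_of_pos_left _ h1
    _ ≤ E * (R * dl E R j * dl E R j) := Nat.le_mul_of_pos_left _ hE

omit [Fintype U] [DecidableEq U] in
private lemma St_mono {V : Submodule (ZMod p) ((U → Bool) → ZMod p)} {D D' B : ℕ}
    {A : Finset (Fml p U)} {Pf : Fml p U → (U → Bool) → ZMod p} (hS : St V D B A Pf)
    (h : D' ≤ D) : St V D' B A Pf :=
  ⟨fun x y f g hf hfx hgy hxy => hS.cl x y f g hf hfx hgy (hxy.trans h), hS.one, hS.ev⟩

private lemma levels {V : Submodule (ZMod p) ((U → Bool) → ZMod p)} {D : ℕ} (hV : ClV V D)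
    (h1 : (1 : (U → Bool) → ZMod p) ∉ V) (pi : List (Fml p U)) (dep : ℕ)
    (hdep : ∀ l ∈ pi, Fml.depth l ≤ dep) (R c : ℕ) (hR : 1 ≤ R) (j : ℕ)
    (hc : ∀ i < j, (2 * (Fml.inputs pi).card * (Nat.log 2 (Fml.inner pi).card + 1) /
      (R * dl (p ^ dep) R i) + 1) * dl (p ^ dep) R i ≤ c)
    (hD : j * c + 4 * p * dl (p ^ dep) R j ≤ D) :
    ∃ (V' : Submodule (ZMod p) ((U → Bool) → ZMod p)) (Pf : Fml p U → (U → Bool) → ZMod p),
      St V' (D - j * c) (dl (p ^ dep) R j) (lev pi j) Pf ∧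
      ∀ g ∈ V, g ∈ Dg (ZMod p) (D - j * c) → g ∈ V' := by
  have hp1 : 1 ≤ p := (Fact.out : p.Prime).one_lt.le
  have hE : 1 ≤ p ^ dep := Nat.one_le_pow _ _ hp1
  induction j with
  | zero =>
    have hS : St V D 1 (∅ : Finset (Fml p U)) (fun _ => 0) :=
      ⟨hV, h1, fun a ha => absurd ha (notMem_empty a)⟩
    obtain ⟨V', Pf, h2, h3⟩ := step (A' := lev pi 0) (Inp := ∅) hS le_rfl
      (fun a ha => absurd ha (notMem_empty a)) (cls_lev pi 0) (empty_subset _)
      (by
        intro c a b hab _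
        rw [mem_lev] at hab
        have h4 := hab.2
        simp only [Fml.blk] at h4
        simp at h4) dep
      (fun a ha => mh_subsL hdep (inner_sub pi (mem_lev.mp ha).1)) 1 0 le_rfl
      (Or.inr (by simp)) (by
        have e : dl (p ^ dep) R 0 = p ^ dep := rfl
        rw [e] at hD
        simpa using hD)
    refine ⟨V', Pf, ?_, ?_⟩
    · have e : dl (p ^ dep) R 0 = p ^ dep * (1 * 1) := by
        rw [mul_one, mul_one]; rfl
      rw [e]
      simpa using h2
    · simpa using h3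
  | succ j ih =>
    obtain ⟨B, hB⟩ : ∃ B, B = dl (p ^ dep) R j := ⟨_, rfl⟩
    have hB1 : 1 ≤ B := by rw [hB]; exact dl_pos hE hR j
    have hBn : dl (p ^ dep) R (j + 1) = p ^ dep * (R * B * B) := by rw [hB]; rfl
    have hmono := dl_mono hE hR j
    have hjc : (j + 1) * c = j * c + c := by ring
    obtain ⟨V', Pf, hS, hext⟩ := ih (fun i hi => hc i (by omega)) (by
      have := Nat.mul_le_mul_left (4 * p) hmono
      omega)
    obtain ⟨t, ht⟩ : ∃ t, t = R * B := ⟨_, rfl⟩
    have ht1 : 1 ≤ t := by rw [ht]; exact Nat.mul_pos hR hB1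
    obtain ⟨m, hm⟩ : ∃ m, m = 2 * (Fml.inputs pi).card *
      (Nat.log 2 (Fml.inner pi).card + 1) / t + 1 := ⟨_, rfl⟩
    have hcj : m * B ≤ c := by
      have := hc j (by omega)
      rw [← hB, ← ht, ← hm] at this
      exact this
    rw [hBn] at hD
    rw [← hB] at hS
    have hD' : m * B + 4 * p * (p ^ dep * (t * B)) ≤ D - j * c := by
      rw [ht]
      omega
    obtain ⟨V'', Pf', h2, h3⟩ := step (A' := lev pi (j + 1)) (Inp := Fml.inputs pi) hS hB1
      (cls_lev pi j) (cls_lev pi (j + 1))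
      (fun a ha => by
        rw [mem_lev] at ha ⊢
        exact ⟨ha.1, ha.2.trans (Nat.le_succ j)⟩)
      (by
        intro c' a b hab _
        rw [mem_lev] at hab
        have hin := args_inputs (inner_sub pi hab.1)
        refine ⟨fun x hx => ?_, hin⟩
        rw [mem_lev]
        refine ⟨inputs_sub pi (hin hx), ?_⟩
        have := blk_args hx
        omega) dep
      (fun a ha => mh_subsL hdep (inner_sub pi (mem_lev.mp ha).1)) t m ht1
      (Or.inl (by
        have hcard : (lev pi (j + 1)).card ≤ (Fml.inner pi).card := by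
          unfold lev
          exact card_filter_le _ _
        have hlog := Nat.log_mono_right (b := 2) hcard
        have h5 : 2 * (Fml.inputs pi).card * (Nat.log 2 (lev pi (j + 1)).card + 1) ≤
            2 * (Fml.inputs pi).card * (Nat.log 2 (Fml.inner pi).card + 1) :=
          Nat.mul_le_mul_left _ (by omega)
        refine h5.trans ?_
        rw [hm]
        have h6 := Nat.lt_div_mul_add
          (a := 2 * (Fml.inputs pi).card * (Nat.log 2 (Fml.inner pi).card + 1)) ht1
        rw [add_mul, one_mul]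
        exact h6.le)) hD'
    refine ⟨V'', Pf', ?_, ?_⟩
    · rw [hBn]
      rw [ht] at h2
      exact St_mono h2 (by omega)
    · intro g hg hgD
      refine h3 g (hext g hg (Dg_mono (by omega) hgD)) (Dg_mono (by omega) hgD)

theorem iter {V : Submodule (ZMod p) ((U → Bool) → ZMod p)} {D : ℕ} (hV : ClV V D)
    (h1 : (1 : (U → Bool) → ZMod p) ∉ V) (pi : List (Fml p U)) (a dep : ℕ)
    (hblk : ∀ l ∈ pi, Fml.blk none l ≤ a + 1) (hdep : ∀ l ∈ pi, Fml.depth l ≤ dep)
    (R c t m : ℕ) (hR : 1 ≤ R) (ht : 1 ≤ t)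
    (hc : ∀ i < a, (2 * (Fml.inputs pi).card * (Nat.log 2 (Fml.inner pi).card + 1) /
      (R * dl (p ^ dep) R i) + 1) * dl (p ^ dep) R i ≤ c)
    (hm : 2 * (Fml.inputs pi).card * (Nat.log 2 (Fml.subsL pi).card + 1) ≤ m * t ∨
      (Fml.inputs pi).card ≤ t)
    (hD : a * c + m * dl (p ^ dep) R a + 4 * p * (p ^ dep * (t * dl (p ^ dep) R a)) ≤ D) :
    ∃ (V' : Submodule (ZMod p) ((U → Bool) → ZMod p)) (Pf : Fml p U → (U → Bool) → ZMod p),
      St V' (D - a * c - m * dl (p ^ dep) R a) (p ^ dep * (t * dl (p ^ dep) R a))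
        (Fml.subsL pi) Pf ∧
      ∀ g ∈ V, g ∈ Dg (ZMod p) (D - a * c - m * dl (p ^ dep) R a) → g ∈ V' := by
  have hp1 : 1 ≤ p := (Fact.out : p.Prime).one_lt.le
  have hE : 1 ≤ p ^ dep := Nat.one_le_pow _ _ hp1
  have hda := dl_pos hE hR a
  obtain ⟨B, hB⟩ : ∃ B, B = dl (p ^ dep) R a := ⟨_, rfl⟩
  rw [← hB] at hda hD ⊢
  have hBB : B ≤ p ^ dep * (t * B) :=
    (Nat.le_mul_of_pos_left _ ht).trans (Nat.le_mul_of_pos_left _ hE)
  have h4 := Nat.mul_le_mul_left (4 * p) hBB
  obtain ⟨V', Pf, hS, hext⟩ := levels hV h1 pi dep hdep R c hR a hc (by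
    rw [← hB]
    omega)
  rw [← hB] at hS
  have hlev : lev pi a = Fml.inner pi := by
    ext x
    rw [mem_lev]
    constructor
    · exact fun h => h.1
    · intro h
      refine ⟨h, ?_⟩
      have := blk_inner hblk h
      omega
  rw [hlev] at hS
  obtain ⟨V'', Pf', h2, h3⟩ := step (A' := Fml.subsL pi) (Inp := Fml.inputs pi) hS hda
    (cls_inner pi) (cls_subsL pi) (inner_sub pi)
    (by
      intro c' x y hxy _
      have hin := args_inputs hxy
      exact ⟨hin.trans (inputs_sub pi), hin⟩) dep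
    (fun x hx => mh_subsL hdep hx) t m ht hm (by omega)
  refine ⟨V'', Pf', h2, ?_⟩
  intro g hg hgD
  exact h3 g (hext g hg (Dg_mono (by omega) hgD)) hgD

end Pool.Agent.Work.MP_c04246_lc.R
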