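import Pool.Agent.Work.MP_c04246_lc.G.Ba

/-!
MODULE Kil (size M). Killing: after adding at most `m` equations `f i = 0` every gate `g` (a set of indices) contains an `i` with
`f i = 0`, or all but `t` of its `f i` are `1`.

Proof. Call `g ∈ Gs` bad for `V'` if no `i ∈ g` has `f i ∈ V'` and more than `t` of the `i ∈ g` have `1 - f i ∉ V'`; let `b V'` be the number of
bad gates. Show by induction on `s ≤ m`: there is `V'` with `ClV V' (D - s * δ)`, `1 ∉ V'`, `g ∈ V → g ∈ Dg (D - s * δ) → g ∈ V'`, and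
`(b V' : ℝ) ≤ Gs.card * (1 - t / I.card) ^ s` if `t ≤ I.card` (if `I.card < t` no gate is bad, take `V' = V`; `ClV` is monotone in `D`).
Step: if `b V' = 0` keep `V'`. Otherwise `∑ i ∈ I, #{g bad | i ∈ g, 1 - f i ∉ V'} = ∑ g bad, #{i ∈ g | 1 - f i ∉ V'} ≥ t * b V'`, so some `i ∈ I`
has `I.card * #{g bad | i ∈ g, 1 - f i ∉ V'} ≥ t * b V'`, and this number is positive if `t ≥ 1` (if `t = 0` take any such `i` of a bad
gate), so `1 - f i ∉ V'`. Let `V'' = Vth V' (1 - f i) = {g | (1 - f i) * g ∈ V'}`.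
`1 ∉ V''` since `1 - f i ∉ V'`; `ClV V'' (D - s * δ - δ)` by `ClV.th`; `g ∈ V'`, `g ∈ Dg (D - (s + 1) * δ)` implies `g ∈ V''` by `mem_Vth_of`;
`f i ∈ V''` since `f i * (1 - f i) ∈ V ∩ Dg (2 * δ)`, so it is in `V'` (`(m + 2) * δ ≤ D`). A gate which is bad for `V''` is bad for `V'`
(`f j`, `1 - f j` have degree `≤ δ ≤ D - (s + 1) * δ`), and it is not one of the counted ones (they contain `i`). So
`b V'' ≤ b V' - t * b V' / I.card`.
End: `Gs.card * (1 - t / I.card) ^ m ≤ Gs.card * exp (- t * m / I.card) ≤ Gs.card * exp (- (Nat.log 2 Gs.card + 1)) < 1`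
(`Real.one_sub_le_exp_neg`, `exp (-x) ≤ 2 ^ (-x)`, `Nat.lt_pow_succ_log_self`), so `b = 0`. (`I.card = 0`: all gates are empty.)
-/

set_option autoImplicit false

namespace Pool.Agent.Work.MP_c04246_lc.R

open Finset

variable {U : Type} [Fintype U] [DecidableEq U] {p : ℕ} [Fact p.Prime]
  {V : Submodule (ZMod p) ((U → Bool) → ZMod p)} {ι : Type} [DecidableEq ι]

omit [Fintype U] [DecidableEq U] in
private lemma clv_mono {D D' : ℕ} (hV : ClV V D) (h : D' ≤ D) : ClV V D' :=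
  fun a b f g hf hfa hgb hab => hV a b f g hf hfa hgb (hab.trans h)

open Classical in
private noncomputable def bad (V' : Submodule (ZMod p) ((U → Bool) → ZMod p))
    (f : ι → (U → Bool) → ZMod p) (Gs : Finset (Finset ι)) (t : ℕ) : Finset (Finset ι) :=
  Gs.filter fun g => (∀ i ∈ g, f i ∉ V') ∧ t < (g.filter fun i => 1 - f i ∉ V').card

open Classical in
private lemma kstep {D δ : ℕ} {V' : Submodule (ZMod p) ((U → Bool) → ZMod p)} (hV' : ClV V' D)
    (I : Finset ι) (f : ι → (U → Bool) → ZMod p)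
    (hf : ∀ i ∈ I, f i ∈ Dg (ZMod p) δ ∧ f i * (1 - f i) ∈ V') (Gs : Finset (Finset ι))
    (hG : ∀ g ∈ Gs, g ⊆ I) (t : ℕ) (ht : 1 ≤ t) (hD : 2 * δ ≤ D)
    (hb : (bad V' f Gs t).Nonempty) :
    ∃ V'' : Submodule (ZMod p) ((U → Bool) → ZMod p), ClV V'' (D - δ) ∧
      (1 : (U → Bool) → ZMod p) ∉ V'' ∧ (∀ g ∈ V', g ∈ Dg (ZMod p) (D - δ) → g ∈ V'') ∧
      (bad V'' f Gs t).card * I.card + t * (bad V' f Gs t).card ≤
        (bad V' f Gs t).card * I.card := by
  set b := (bad V' f Gs t).card with hbdef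
  have hbpos : 0 < b := Finset.card_pos.2 hb
  have hI : I.Nonempty := by
    obtain ⟨g, hg⟩ := hb
    simp only [bad, mem_filter] at hg
    obtain ⟨hgG, -, hgt⟩ := hg
    have : (g.filter fun i => 1 - f i ∉ V').Nonempty := by
      rw [← Finset.card_pos]
      omega
    obtain ⟨i, hi⟩ := this
    exact ⟨i, hG g hgG (mem_filter.1 hi).1⟩
  have hcount : ∑ i ∈ I, ((bad V' f Gs t).filter fun g => i ∈ g ∧ 1 - f i ∉ V').card =
      ∑ g ∈ bad V' f Gs t, (I.filter fun i => i ∈ g ∧ 1 - f i ∉ V').card :=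
    Finset.sum_card_bipartiteAbove_eq_sum_card_bipartiteBelow
      (s := I) (t := bad V' f Gs t) (fun (i : ι) (g : Finset ι) => i ∈ g ∧ 1 - f i ∉ V')
  have hge : t * b ≤ ∑ g ∈ bad V' f Gs t, (I.filter fun i => i ∈ g ∧ 1 - f i ∉ V').card := by
    rw [hbdef, mul_comm, ← smul_eq_mul]
    refine Finset.card_nsmul_le_sum _ _ _ fun g hg => ?_
    simp only [bad, mem_filter] at hg
    obtain ⟨hgG, -, hgt⟩ := hg
    refine hgt.le.trans (Finset.card_le_card fun i hi => ?_)
    rw [mem_filter] at hi ⊢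
    exact ⟨hG g hgG hi.1, hi.1, hi.2⟩
  obtain ⟨i, hi, hic⟩ : ∃ i ∈ I, t * b ≤
      I.card * ((bad V' f Gs t).filter fun g => i ∈ g ∧ 1 - f i ∉ V').card := by
    refine Finset.exists_le_of_sum_le hI ?_
    rw [Finset.sum_const, smul_eq_mul, ← Finset.mul_sum, hcount]
    exact Nat.mul_le_mul_left _ hge
  set c := ((bad V' f Gs t).filter fun g => i ∈ g ∧ 1 - f i ∉ V').card with hc
  have hcpos : 0 < c := by
    rcases Nat.eq_zero_or_pos c with h0 | h0
    · rw [h0, mul_zero] at hic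
      have := Nat.mul_pos ht hbpos
      omega
    · exact h0
  have hi1 : 1 - f i ∉ V' := by
    obtain ⟨g, hg⟩ := Finset.card_pos.1 hcpos
    exact (mem_filter.1 hg).2.2
  have hfi := hf i hi
  have hth : 1 - f i ∈ Dg (ZMod p) δ := Submodule.sub_mem _ (one_mem_Dg δ) hfi.1
  have hin : ∀ g ∈ V', g ∈ Dg (ZMod p) (D - δ) → g ∈ Vth V' (1 - f i) := fun g hg hg' =>
    mem_Vth_of hV' hth hg hg' (by omega)
  have hfiV : f i ∈ Vth V' (1 - f i) := by
    rw [mem_Vth, mul_comm]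
    exact hfi.2
  refine ⟨Vth V' (1 - f i), ClV.th hV' hth (by omega), ?_, hin, ?_⟩
  · rw [mem_Vth, mul_one]
    exact hi1
  · have hdisj : (bad (Vth V' (1 - f i)) f Gs t).card + c ≤ b := by
      have hsub : bad (Vth V' (1 - f i)) f Gs t ⊆
          (bad V' f Gs t).filter fun g => ¬ (i ∈ g ∧ 1 - f i ∉ V') := by
        intro g hg
        simp only [bad, mem_filter] at hg ⊢
        obtain ⟨hgG, hg1, hg2⟩ := hg
        refine ⟨⟨hgG, fun j hj hjV => hg1 j hj (hin _ hjV ?_), ?_⟩, fun h => hg1 i h.1 hfiV⟩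
        · exact Dg_mono (by omega) (hf j (hG g hgG hj)).1
        · refine hg2.trans_le (Finset.card_le_card fun j hj => ?_)
          rw [mem_filter] at hj ⊢
          refine ⟨hj.1, fun hjV => hj.2 (hin _ hjV ?_)⟩
          exact Dg_mono (by omega : δ ≤ D - δ)
            (Submodule.sub_mem _ (one_mem_Dg δ) (hf j (hG g hgG hj.1)).1)
      have h3 := Finset.card_le_card hsub
      have h4 := Finset.card_filter_add_card_filter_not (s := bad V' f Gs t)
        (fun g => i ∈ g ∧ 1 - f i ∉ V')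
      omega
    have h5 : ((bad (Vth V' (1 - f i)) f Gs t).card + c) * I.card ≤ b * I.card :=
      Nat.mul_le_mul_right _ hdisj
    rw [add_mul] at h5
    rw [mul_comm I.card c] at hic
    omega

private lemma kfin {I t m L G : ℕ} (hI : t ≤ I) (hI0 : 0 < I) (hG : G < 2 ^ (L + 1))
    (htm : I * (L + 1) ≤ m * t) : G * (I - t) ^ m < I ^ m := by
  have hIr : (0 : ℝ) < I := by exact_mod_cast hI0
  have h1 : ((I - t : ℕ) : ℝ) = I * (1 - t / I) := by
    rw [Nat.cast_sub hI]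
    field_simp
  have h2 : (1 - (t : ℝ) / I) ≤ Real.exp (-(t / I)) := Real.one_sub_le_exp_neg _
  have h0 : (0 : ℝ) ≤ 1 - (t : ℝ) / I := by
    rw [sub_nonneg, div_le_one hIr]
    exact_mod_cast hI
  have h3 : (1 - (t : ℝ) / I) ^ m ≤ Real.exp (-((L : ℝ) + 1)) := by
    calc (1 - (t : ℝ) / I) ^ m ≤ (Real.exp (-(t / I))) ^ m := pow_le_pow_left₀ h0 h2 m
      _ = Real.exp (-(m * t / I)) := by
        rw [← Real.exp_nat_mul]
        congr 1
        ring
      _ ≤ Real.exp (-((L : ℝ) + 1)) := by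
        apply Real.exp_le_exp.2
        apply neg_le_neg
        rw [le_div_iff₀ hIr]
        have : ((I * (L + 1) : ℕ) : ℝ) ≤ ((m * t : ℕ) : ℝ) := by exact_mod_cast htm
        push_cast at this
        linarith
  have h4 : Real.exp (-((L : ℝ) + 1)) * 2 ^ (L + 1) ≤ 1 := by
    have h5 : (2 : ℝ) ≤ Real.exp 1 := by
      have := Real.add_one_le_exp (1 : ℝ)
      linarith
    have h6 : Real.exp ((L : ℝ) + 1) = (Real.exp 1) ^ (L + 1) := by
      rw [← Real.exp_nat_mul]
      congr 1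
      push_cast
      ring
    rw [Real.exp_neg, h6, inv_mul_le_iff₀ (by positivity), mul_one]
    exact pow_le_pow_left₀ (by norm_num) h5 _
  have hGr : (G : ℝ) < 2 ^ (L + 1) := by exact_mod_cast hG
  have h7 : (G : ℝ) * (1 - (t : ℝ) / I) ^ m < 1 := by
    calc (G : ℝ) * (1 - (t : ℝ) / I) ^ m ≤ G * Real.exp (-((L : ℝ) + 1)) :=
        mul_le_mul_of_nonneg_left h3 (Nat.cast_nonneg _)
      _ < 2 ^ (L + 1) * Real.exp (-((L : ℝ) + 1)) :=
        mul_lt_mul_of_pos_right hGr (Real.exp_pos _)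
      _ ≤ 1 := by
        rw [mul_comm]
        exact h4
  have h8 : ((G * (I - t) ^ m : ℕ) : ℝ) < ((I ^ m : ℕ) : ℝ) := by
    rw [Nat.cast_mul, Nat.cast_pow, Nat.cast_pow, h1, mul_pow]
    have h9 : (0 : ℝ) < (I : ℝ) ^ m := pow_pos hIr m
    calc (G : ℝ) * ((I : ℝ) ^ m * (1 - (t : ℝ) / I) ^ m) =
        (G * (1 - (t : ℝ) / I) ^ m) * (I : ℝ) ^ m := by ring
      _ < 1 * (I : ℝ) ^ m := mul_lt_mul_of_pos_right h7 h9
      _ = (I : ℝ) ^ m := one_mul _
  exact_mod_cast h8

open Classical in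
theorem kill {D δ : ℕ} (hV : ClV V D) (h1 : (1 : (U → Bool) → ZMod p) ∉ V) (I : Finset ι)
    (f : ι → (U → Bool) → ZMod p)
    (hf : ∀ i ∈ I, f i ∈ Dg (ZMod p) δ ∧ f i * (1 - f i) ∈ V) (Gs : Finset (Finset ι))
    (hG : ∀ g ∈ Gs, g ⊆ I) (t m : ℕ) (ht : 1 ≤ t)
    (htm : I.card * (Nat.log 2 Gs.card + 1) ≤ m * t) (hD : (m + 2) * δ ≤ D) :
    ∃ V' : Submodule (ZMod p) ((U → Bool) → ZMod p), ClV V' (D - m * δ) ∧
      (1 : (U → Bool) → ZMod p) ∉ V' ∧ (∀ g ∈ V, g ∈ Dg (ZMod p) (D - m * δ) → g ∈ V') ∧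
      ∀ g ∈ Gs, (∃ i ∈ g, f i ∈ V') ∨ (g.filter fun i => 1 - f i ∉ V').card ≤ t := by
  by_cases hIt : I.card < t
  · refine ⟨V, clv_mono hV (Nat.sub_le _ _), h1, fun g hg _ => hg, fun g hg => Or.inr ?_⟩
    exact ((Finset.card_filter_le _ _).trans (Finset.card_le_card (hG g hg))).trans hIt.le
  push Not at hIt
  have hI0 : 0 < I.card := lt_of_lt_of_le ht hIt
  have key : ∀ s ≤ m, ∃ V' : Submodule (ZMod p) ((U → Bool) → ZMod p), ClV V' (D - s * δ) ∧
      (1 : (U → Bool) → ZMod p) ∉ V' ∧ (∀ g ∈ V, g ∈ Dg (ZMod p) (D - s * δ) → g ∈ V') ∧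
      (bad V' f Gs t).card * I.card ^ s ≤ Gs.card * (I.card - t) ^ s := by
    intro s
    induction s with
    | zero =>
      intro _
      refine ⟨V, clv_mono hV (Nat.sub_le _ _), h1, fun g hg _ => hg, ?_⟩
      rw [pow_zero, pow_zero, mul_one, mul_one]
      exact Finset.card_filter_le _ _
    | succ s ih =>
      intro hs
      obtain ⟨V', hc, h1', hin, hbd⟩ := ih (by omega)
      have hs2 : (s + 2) * δ ≤ D := le_trans (Nat.mul_le_mul_right _ (by omega)) hD
      have he : (s + 2) * δ = s * δ + 2 * δ := by ring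
      have he1 : (s + 1) * δ = s * δ + δ := by ring
      have he2 : D - (s + 1) * δ = D - s * δ - δ := by
        rw [he1, Nat.sub_sub]
      rcases (bad V' f Gs t).eq_empty_or_nonempty with h0 | h0
      · refine ⟨V', clv_mono hc (by omega), h1', fun g hg hg' => hin g hg ?_, ?_⟩
        · exact Dg_mono (by omega) hg'
        · rw [h0, Finset.card_empty, zero_mul]
          exact Nat.zero_le _
      · obtain ⟨V'', hc'', h1'', hin'', hbd''⟩ := kstep hc I f
          (fun i hi => ⟨(hf i hi).1, hin _ (hf i hi).2 (by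
            refine Dg_mono (by omega : δ + δ ≤ D - s * δ) (mul_mem_Dg (hf i hi).1
              (Submodule.sub_mem _ (one_mem_Dg δ) (hf i hi).1)))⟩) Gs hG t ht (by omega) h0
        refine ⟨V'', by rwa [he2], h1'', fun g hg hg' => ?_, ?_⟩
        · rw [he2] at hg'
          refine hin'' g (hin g hg (Dg_mono (by omega) hg')) hg'
        · have h2 : (bad V'' f Gs t).card * I.card ≤ (bad V' f Gs t).card * (I.card - t) := by
            rw [Nat.mul_sub]
            have := mul_comm t (bad V' f Gs t).card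
            omega
          calc (bad V'' f Gs t).card * I.card ^ (s + 1) =
              ((bad V'' f Gs t).card * I.card) * I.card ^ s := by ring
            _ ≤ ((bad V' f Gs t).card * (I.card - t)) * I.card ^ s := Nat.mul_le_mul_right _ h2
            _ = ((bad V' f Gs t).card * I.card ^ s) * (I.card - t) := by ring
            _ ≤ (Gs.card * (I.card - t) ^ s) * (I.card - t) := Nat.mul_le_mul_right _ hbd
            _ = Gs.card * (I.card - t) ^ (s + 1) := by ring
  obtain ⟨V', hc, h1', hin, hbd⟩ := key m le_rfl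
  refine ⟨V', hc, h1', hin, fun g hg => ?_⟩
  by_contra hcon
  push Not at hcon
  have hgb : g ∈ bad V' f Gs t := by
    simp only [bad, mem_filter]
    exact ⟨hg, hcon.1, hcon.2⟩
  have hb1 : 1 ≤ (bad V' f Gs t).card := Finset.card_pos.2 ⟨g, hgb⟩
  have h2 := kfin (m := m) hIt hI0 (Nat.lt_pow_succ_log_self (by norm_num) Gs.card) htm
  have h3 : I.card ^ m ≤ (bad V' f Gs t).card * I.card ^ m := Nat.le_mul_of_pos_left _ hb1
  omega

end Pool.Agent.Work.MP_c04246_lc.R
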