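import Pool.Agent.Work.MP_c04246_lc.G.Ba

/-!
MODULE NulW (size S-M). Finite Nullstellensatz modulo `V` with different degrees.

Proof. The proof of `null` in R/Null.lean works word for word: there all `q i` have the same degree `d`; here
`E a = ∏ i, mdA (fun r => decide (r = a i)) (q i) ∈ Dg (∑ i, (p - 1) * dq i)` by `mdA_mem_Dg` and `prod_mem_Dg`.
-/

set_option autoImplicit false

namespace Pool.Agent.Work.MP_c04246_lc.R

open Finset

variable {U : Type} [Fintype U] [DecidableEq U] {p : ℕ} [Fact p.Prime]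

theorem nullW {V : Submodule (ZMod p) ((U → Bool) → ZMod p)} {D : ℕ} (hV : ClV V D)
    {I J : Type} [Fintype I] (q : I → (U → Bool) → ZMod p) (dq : I → ℕ) (c : ℕ)
    (hq : ∀ i, q i ∈ Dg (ZMod p) (dq i)) (ρ : J → (U → Bool) → ZMod p)
    (hρ : ∀ j, ρ j ∈ V ∧ ρ j ∈ Dg (ZMod p) c) (T : (U → Bool) → ZMod p)
    (hρq : ∀ j y y', (∀ i, q i y = q i y') → ρ j y = ρ j y')
    (hTq : ∀ y y', (∀ i, q i y = q i y') → T y = T y')
    (hpt : ∀ y, (∀ j, ρ j y = 0) → T y = 0)
    (hD : c + ∑ i, (p - 1) * dq i ≤ D) : T ∈ V := by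
  classical
  let E : (I → ZMod p) → (U → Bool) → ZMod p := fun a =>
    ∏ i, mdA (fun r => decide (r = a i)) (q i)
  have hE : ∀ a, E a ∈ Dg (ZMod p) (∑ i, (p - 1) * dq i) := fun a =>
    prod_mem_Dg (univ : Finset I) (fun i => (p - 1) * dq i)
      (fun i => mdA (fun r => decide (r = a i)) (q i)) (fun i _ => mdA_mem_Dg _ (hq i))
  have hEy : ∀ a y, E a y = if (∀ i, q i y = a i) then 1 else 0 := by
    intro a y
    simp only [E, Finset.prod_apply, mdA, decide_eq_true_eq]
    split_ifs with h
    · exact Finset.prod_eq_one fun i _ => if_pos (h i)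
    · push Not at h
      obtain ⟨i, hi⟩ := h
      exact Finset.prod_eq_zero (mem_univ i) (if_neg hi)
  have hT : T = ∑ a, T * E a := by
    funext y
    rw [Finset.sum_apply, Finset.sum_eq_single (fun i => q i y)]
    · rw [Pi.mul_apply, hEy, if_pos (fun i => rfl), mul_one]
    · intro a _ ha
      rw [Pi.mul_apply, hEy, if_neg, mul_zero]
      intro h
      exact ha (funext fun i => (h i).symm)
    · intro h
      exact absurd (mem_univ _) h
  rw [hT]
  apply Submodule.sum_mem
  intro a _
  by_cases hy : ∃ y0, ∀ i, q i y0 = a i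
  · obtain ⟨y0, hy0⟩ := hy
    by_cases hT0 : T y0 = 0
    · have h1 : T * E a = 0 := by
        funext y
        rw [Pi.mul_apply, hEy]
        split_ifs with h
        · rw [hTq y y0 (fun i => by rw [h i, hy0 i]), hT0, zero_mul]
          rfl
        · rw [mul_zero]
          rfl
      rw [h1]
      exact V.zero_mem
    · have h1 : ∃ j, ρ j y0 ≠ 0 := by
        by_contra hh
        push Not at hh
        exact hT0 (hpt y0 hh)
      obtain ⟨j, hj⟩ := h1
      have h2 : T * E a = (T y0 / ρ j y0) • (ρ j * E a) := by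
        funext y
        rw [Pi.mul_apply, Pi.smul_apply, Pi.mul_apply, hEy, smul_eq_mul]
        split_ifs with h
        · have h3 : ∀ i, q i y = q i y0 := fun i => by rw [h i, hy0 i]
          rw [hTq y y0 h3, hρq j y y0 h3, mul_one, mul_one, div_mul_cancel₀ _ hj]
        · rw [mul_zero, mul_zero, mul_zero]
      rw [h2]
      exact V.smul_mem _ (hV c _ _ _ (hρ j).1 (hρ j).2 (hE a) hD)
  · have h1 : E a = 0 := by
      funext y
      rw [hEy, if_neg (fun h => hy ⟨y, h⟩)]
      rfl
    rw [h1, mul_zero]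
    exact V.zero_mem

end Pool.Agent.Work.MP_c04246_lc.R
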