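import Pool.Agent.Work.MP_c04246_lc.G.Ctr
import Pool.Agent.Work.MP_c04246_lc.G.Num
import Pool.Agent.Work.MP_c04246_lc.G.Fi1

/-!
The size-degree relation: `UnrestrictedTradeoff` for every CNF without polynomial calculus refutation
of low degree.
-/

set_option autoImplicit false

namespace Pool.Agent.Work.MP_c04246_lc.R

open Finset

section pc

variable {U M : Type} (𝕜 : Type) [Field 𝕜]

/-- the polynomial of a clause (the product of its negated literals): it is `0` at the assignments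
which satisfy the clause and `1` at the other ones -/
noncomputable def fal (C : Finset (U × Bool)) : (U → Bool) → 𝕜 :=
  fun y => open Classical in if ∃ l ∈ C, y l.1 = l.2 then 0 else 1

/-- Polynomial calculus derivations of degree at most `D` from the clauses `cl`. The lines are
multilinear polynomials, i.e. functions on the cube. Rules: the polynomials of the clauses, linear
combinations, and multiplication of a polynomial of degree less than `D` by a variable. -/
inductive PC (cl : M → Finset (U × Bool)) (D : ℕ) : ((U → Bool) → 𝕜) → Prop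
  | ax (i : M) : fal 𝕜 (cl i) ∈ Dg 𝕜 D → PC cl D (fal 𝕜 (cl i))
  | zero : PC cl D 0
  | lin (a b : 𝕜) (f g : (U → Bool) → 𝕜) : PC cl D f → PC cl D g → PC cl D (a • f + b • g)
  | mul (x : U) (e : ℕ) (f : (U → Bool) → 𝕜) : PC cl D f → f ∈ Dg 𝕜 e → e + 1 ≤ D →
      PC cl D (mon 𝕜 {x} * f)

variable {𝕜}

/-- the space of the derivable polynomials -/
def pcV (𝕜 : Type) [Field 𝕜] (cl : M → Finset (U × Bool)) (D : ℕ) :
    Submodule 𝕜 ((U → Bool) → 𝕜) where
  carrier := {f | PC 𝕜 cl D f}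
  zero_mem' := PC.zero
  add_mem' := by
    intro f g hf hg
    have h := PC.lin 1 1 f g hf hg
    rwa [one_smul, one_smul] at h
  smul_mem' := by
    intro c f hf
    have h := PC.lin c 0 f f hf hf
    rwa [zero_smul, add_zero] at h

theorem mem_pcV {cl : M → Finset (U × Bool)} {D : ℕ} {f : (U → Bool) → 𝕜} :
    f ∈ pcV 𝕜 cl D ↔ PC 𝕜 cl D f := Iff.rfl

private theorem mon_insert [DecidableEq U] (x : U) (t : Finset U) :
    mon 𝕜 (insert x t) = mon 𝕜 {x} * mon 𝕜 t := by
  funext y
  simp only [mon, Pi.mul_apply, mem_insert, forall_eq_or_imp, mem_singleton, forall_eq]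
  by_cases h1 : y x = true <;> by_cases h2 : ∀ z ∈ t, y z = true <;> simp [h1, h2]

private theorem mon_Dg (t : Finset U) : mon 𝕜 t ∈ Dg 𝕜 t.card :=
  Submodule.subset_span ⟨t, le_rfl, rfl⟩

private theorem mul_mon [Fintype U] [DecidableEq U] {cl : M → Finset (U × Bool)} {D : ℕ}
    {f : (U → Bool) → 𝕜} {a : ℕ} (hf : PC 𝕜 cl D f) (ha : f ∈ Dg 𝕜 a) (t : Finset U) :
    a + t.card ≤ D → PC 𝕜 cl D (mon 𝕜 t * f) := by
  induction t using Finset.induction_on with
  | empty =>
    intro _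
    have h : (mon 𝕜 (∅ : Finset U) : (U → Bool) → 𝕜) * f = f := by
      funext y
      simp [mon]
    rw [h]
    exact hf
  | insert x t hx ih =>
    intro h
    rw [card_insert_of_notMem hx] at h
    rw [mon_insert, mul_assoc]
    refine PC.mul x (t.card + a) _ (ih (by omega)) (mul_mem_Dg (mon_Dg t) ha) (by omega)

theorem clV_pcV [Fintype U] [DecidableEq U] (cl : M → Finset (U × Bool)) (D : ℕ) :
    ClV (pcV 𝕜 cl D) D := by
  intro a b f g hf ha hg hab
  induction hg using Submodule.span_induction with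
  | mem g hg =>
    obtain ⟨t, ht, rfl⟩ := hg
    rw [mul_comm]
    exact mul_mon hf ha t (by omega)
  | zero =>
    rw [mul_zero]
    exact Submodule.zero_mem _
  | add g g' _ _ h h' =>
    rw [mul_add]
    exact Submodule.add_mem _ h h'
  | smul c g _ h =>
    rw [mul_smul_comm]
    exact Submodule.smul_mem _ c h

end pc

private theorem sd_card {n m k : ℕ} (F : Fin m → Fin k → Fin n × Bool) (i : Fin m) :
    (vr (clF F) i).card ≤ k := by
  unfold vr clF
  refine card_image_le.trans (card_image_le.trans ?_)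
  simp

private theorem sd_dl {E R : ℕ} (hE : 1 ≤ E) (hR : 1 ≤ R) (j : ℕ) : 1 ≤ dl E R j := by
  induction j with
  | zero => exact hE
  | succ j ih => exact Nat.mul_pos hE (Nat.mul_pos (Nat.mul_pos hR ih) ih)

/-- the polynomial of a clause has degree at most its width -/
theorem fal_mem_Dg {U : Type} [Fintype U] [DecidableEq U] {𝕜 : Type} [Field 𝕜]
    (C : Finset (U × Bool)) {k : ℕ} (hk : (C.image Prod.fst).card ≤ k) : fal 𝕜 C ∈ Dg 𝕜 k := by
  classical
  refine Dg_mono hk (junta_mem_Dg _ _ fun y y' hyy => ?_)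
  unfold fal
  have h : (∃ l ∈ C, y l.1 = l.2) ↔ ∃ l ∈ C, y' l.1 = l.2 := by
    refine exists_congr fun l => and_congr_right fun hl => ?_
    rw [hyy l.1 (mem_image_of_mem _ hl)]
  simp only [h]

/-- There is no refutation if the parameters of `iter` exist. -/
theorem no_ref2 (k : ℕ) (p : ℕ) [Fact p.Prime] (K dep a : ℕ) (n m' : ℕ)
    (F : Fin m' → Fin k → Fin n × Bool) (D : ℕ)
    (V0 : Submodule (ZMod p) ((Fin n → Bool) → ZMod p)) (hV1 : ClV V0 (D + k))
    (hax : ∀ i, fal (ZMod p) (clF F i) ∈ V0) (h1V0 : (1 : (Fin n → Bool) → ZMod p) ∉ V0)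
    (pi : List (Fml p (Fin n)))
    (hpi : Fml.IsDer K (Set.range fun i => Fml.clauseF (F i)) pi)
    (hend : Fml.dnfF F ∈ pi ∨ Fml.cst false ∈ pi)
    (hblk : ∀ l ∈ pi, Fml.blk none l ≤ a + 1) (hdep : ∀ l ∈ pi, Fml.depth l ≤ dep)
    (R c t m : ℕ) (hR : 1 ≤ R) (ht : 1 ≤ t)
    (hc : ∀ i < a, (2 * (Fml.inputs pi).card * (Nat.log 2 (Fml.inner pi).card + 1) /
      (R * dl (p ^ dep) R i) + 1) * dl (p ^ dep) R i ≤ c)
    (hm : 2 * (Fml.inputs pi).card * (Nat.log 2 (Fml.subsL pi).card + 1) ≤ m * t ∨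
      (Fml.inputs pi).card ≤ t)
    (hD : a * c + m * dl (p ^ dep) R a +
      (9 * p + cS p K + 2) * (k + p ^ dep * (t * dl (p ^ dep) R a)) ≤ D) : False := by
  classical
  have hp2 := (Fact.out : p.Prime).two_le
  have hpd : 1 ≤ p ^ dep := Nat.one_le_pow _ _ (by omega)
  have hdl : 1 ≤ dl (p ^ dep) R a := sd_dl hpd hR a
  have hV0 : ClV V0 D := fun a b f g h1 h2 h3 h4 => hV1 a b f g h1 h2 h3 (by omega)
  have hV03 : ∀ (I : Finset (Fin m')) (f : (Fin n → Bool) → ZMod p), I.card ≤ 1 →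
      f ∈ Dg (ZMod p) D → (∀ y, SatAll (clF F) I y → f y = 0) → f ∈ V0 := by
    intro I f hI hf hz
    rcases Nat.le_one_iff_eq_zero_or_eq_one.1 hI with h | h
    · rw [card_eq_zero] at h
      have h2 : f = 0 := by
        funext y
        refine hz y ?_
        rw [h]
        intro i hi
        exact absurd hi (notMem_empty i)
      rw [h2]
      exact V0.zero_mem
    · obtain ⟨i, rfl⟩ := card_eq_one.1 h
      have h2 : f = fal (ZMod p) (clF F i) * f := by
        funext y
        rw [Pi.mul_apply]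
        unfold fal
        by_cases h3 : ∃ l ∈ clF F i, y l.1 = l.2
        · rw [if_pos h3, zero_mul]
          refine hz y fun j hj => ?_
          rw [mem_singleton] at hj
          rw [hj]
          exact h3
        · rw [if_neg h3, one_mul]
      rw [h2]
      exact hV1 k D _ _ (hax i) (fal_mem_Dg _ (sd_card F i)) hf (by omega)
  obtain ⟨B, hB⟩ : ∃ B, B = p ^ dep * (t * dl (p ^ dep) R a) := ⟨_, rfl⟩
  have hB1 : 1 ≤ B := by
    rw [hB]
    exact Nat.mul_pos hpd (Nat.mul_pos ht hdl)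
  have hD2 : a * c + m * dl (p ^ dep) R a + (9 * p + cS p K + 2) * (k + B) ≤ D := by
    rw [hB]; exact hD
  have hkB : B ≤ k + B := Nat.le_add_left _ _
  have hkB' : k ≤ k + B := Nat.le_add_right _ _
  have hexp : (9 * p + cS p K + 2) * (k + B) =
      9 * p * (k + B) + cS p K * (k + B) + 2 * (k + B) := by ring
  have h4p : 4 * p * B ≤ 9 * p * (k + B) :=
    Nat.mul_le_mul (Nat.mul_le_mul_right p (by norm_num)) hkB
  have h5p : 5 * p * B ≤ 9 * p * (k + B) :=
    Nat.mul_le_mul (Nat.mul_le_mul_right p (by norm_num)) hkB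
  obtain ⟨V, Pf, hS, hVV⟩ := iter hV0 h1V0 pi a dep hblk hdep R c t m hR ht hc hm (by
    rw [← hB]
    omega)
  rw [← hB] at hS
  obtain ⟨D', hD'⟩ : ∃ D', D' = D - a * c - m * dl (p ^ dep) R a := ⟨_, rfl⟩
  rw [← hD'] at hS hVV
  obtain ⟨d, hd⟩ : ∃ d, d = k + B := ⟨_, rfl⟩
  rw [← hd] at hD2 hkB hkB' hexp h4p h5p
  have hd1 : 1 ≤ d := le_trans hB1 hkB
  have hcS : cS p K * d ≤ D' := by omega
  have h2d : 2 * d ≤ D' := by omega
  have h5D : 5 * p * B ≤ D' := by omega
  have hD'D : D' ≤ D := by omega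
  have hV : ClV V D' := hS.cl
  have hco : Cow (fun y : Fin n → Bool => y) := fun _ _ _ h => h
  have hrel := rel_of_St hS (cls_subsL pi) h5D
  have hV3 : ∀ (I : Finset (Fin m')) (f : (Fin n → Bool) → ZMod p), I.card ≤ 1 →
      f ∈ Dg (ZMod p) D' → (∀ y, SatAll (clF F) I ((fun y : Fin n → Bool => y) y) → f y = 0) →
      f ∈ V := by
    intro I f hI hf hy
    exact hVV f (hV03 I f hI (Dg_mono hD'D hf) hy) hf
  have hmem : ∀ {ψ}, ψ ∈ Fml.subsL pi ↔ ∃ b ∈ pi, ψ ∈ Fml.subs b := by
    intro ψ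
    unfold Fml.subsL
    rw [mem_biUnion]
    simp only [List.mem_toFinset]
  have key : ∀ b ∈ pi, ∀ χ ∈ Fml.subs b,
      Pf χ ∈ Dg (ZMod p) d ∧ RelV V (fun y : Fin n → Bool => y) Pf χ ∧ Pf χ * (1 - Pf χ) ∈ V := by
    intro b hb χ hχ
    have h1 := hmem.2 ⟨b, hb, hχ⟩
    obtain ⟨h2, h3, -⟩ := hS.ev χ h1
    exact ⟨Dg_mono hkB h2, hrel χ h1, h3⟩
  have hline : ∀ N : ℕ, ∀ i : Fin pi.length, i.val = N → 1 - Pf (pi.get i) ∈ V := by
    intro N
    induction N using Nat.strong_induction_on with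
    | _ N ih =>
      intro i hi
      rcases hpi i with h1 | ⟨P, hP, hinf⟩
      · obtain ⟨i', hi'⟩ := h1
        have hi'' : Fml.clauseF (F i') = pi.get i := hi'
        rw [← hi'']
        refine clause_ev hV hco F hV3 le_rfl hd1 hkB' h2d Pf i' fun χ hχ => ?_
        have h2 := key (pi.get i) (List.get_mem pi i) χ (by rw [← hi'']; exact hχ)
        exact ⟨h2.1, h2.2.1⟩
      · refine sound (sg := fun y : Fin n → Bool => y) hV hcS Pf P (pi.get i) hinf ?_ ?_
        · intro b hb
          obtain ⟨j, hj, rfl⟩ := hP b hb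
          exact ih j.val (by rw [← hi]; exact hj) j rfl
        · rintro χ (hχ | ⟨b, hb, hχ⟩)
          · exact key _ (List.get_mem pi i) χ hχ
          · obtain ⟨j, hj, rfl⟩ := hP b hb
            exact key _ (List.get_mem pi j) χ hχ
  have hall : ∀ b ∈ pi, 1 - Pf b ∈ V := by
    intro b hb
    obtain ⟨i, rfl⟩ := List.mem_iff_get.1 hb
    exact hline _ i rfl
  apply hS.one
  rcases hend with h1 | h1
  · have h2 : Pf (Fml.dnfF F) ∈ V := by
      refine dnf_ev hV hco F hV3 le_rfl hd1 hkB' h2d Pf fun χ hχ => ?_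
      have h3 := key _ h1 χ hχ
      exact ⟨h3.1, h3.2.1⟩
    have h3 := V.add_mem (hall _ h1) h2
    rwa [sub_add_cancel] at h3
  · have h2 : Pf (Fml.cst false) ∈ V := by
      have h3 := (key _ h1 _ (self_mem_subs _)).2.1
      have h4 : Pf (Fml.cst false) - indF (fun _ => false) ∈ V := h3
      have h5 : (indF (fun _ => false) : (Fin n → Bool) → ZMod p) = 0 := by
        funext y
        simp [indF]
      rwa [h5, sub_zero] at h4
    have h3 := V.add_mem (hall _ h1) h2
    rwa [sub_add_cancel] at h3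

end Pool.Agent.Work.MP_c04246_lc.R
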