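import Mathlib

/-!
Polynomial calculus over a field, for CNFs. The lines are multilinear polynomials, regarded as
functions on the cube.
-/

set_option autoImplicit false

namespace Pool.Agent.Work.MP_c04246_lc

/-- the product of the variables in `t`, as a function on the cube -/
def cmon (𝕜 : Type) [Field 𝕜] {U : Type} (t : Finset U) : (U → Bool) → 𝕜 := fun y =>
  open Classical in if ∀ x ∈ t, y x = true then 1 else 0

/-- the (multilinear) polynomials of degree at most `d` -/
def degLe (𝕜 : Type) [Field 𝕜] (U : Type) (d : ℕ) : Submodule 𝕜 ((U → Bool) → 𝕜) :=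
  Submodule.span 𝕜 {f | ∃ t : Finset U, t.card ≤ d ∧ f = cmon 𝕜 t}

/-- the polynomial of a clause, the product of its negated literals: it is `0` at the assignments
which satisfy the clause and `1` at the other ones -/
noncomputable def clausePoly (𝕜 : Type) [Field 𝕜] {U : Type} {k : ℕ} (C : Fin k → U × Bool) :
    (U → Bool) → 𝕜 :=
  fun y => open Classical in if ∃ j, y (C j).1 = (C j).2 then 0 else 1

/-- Derivations in polynomial calculus of degree at most `D` from the clauses of `F`: the
polynomials of the clauses, linear combinations, and products of a polynomial of degree less than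
`D` and a variable. -/
inductive PCDer (𝕜 : Type) [Field 𝕜] {U : Type} {m k : ℕ} (F : Fin m → Fin k → U × Bool) (D : ℕ) :
    ((U → Bool) → 𝕜) → Prop
  | clause (i : Fin m) : clausePoly 𝕜 (F i) ∈ degLe 𝕜 U D → PCDer 𝕜 F D (clausePoly 𝕜 (F i))
  | zero : PCDer 𝕜 F D 0
  | lin (a b : 𝕜) (f g : (U → Bool) → 𝕜) : PCDer 𝕜 F D f → PCDer 𝕜 F D g →
      PCDer 𝕜 F D (a • f + b • g)
  | mul (x : U) (e : ℕ) (f : (U → Bool) → 𝕜) : PCDer 𝕜 F D f → f ∈ degLe 𝕜 U e → e < D →
      PCDer 𝕜 F D (cmon 𝕜 {x} * f)

end Pool.Agent.Work.MP_c04246_lc
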