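import Pool.Agent.Work.MP_c04246_lc.G.EvN
import Pool.Agent.Work.MP_c04246_lc.G.GatA
import Pool.Agent.Work.MP_c04246_lc.G.Kil

/-!
MODULE Stp (size M-L). Extension of a state from `A` to `A'`, where all arguments of the new conjunctions and disjunctions are in `A`.

Proof. Index type `ι = Bool × Fml p U` (classical `DecidableEq`), `f (c, l) = tau (!c) (Pf l)`, `I = univ ×ˢ (Inp.filter (· ∈ A))`,
`I.card ≤ 2 * Inp.card`. `f i ∈ Dg B` (`tau_mem_Dg`), `f i * (1 - f i) = Pf l * (1 - Pf l) ∈ V` (`tau_mul_one_sub`).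
`Gs` = the image of `A'.filter (· ∉ A)` under `χ ↦ ({c} : Finset Bool) ×ˢ args c χ` for `χ = bin c a b` and `χ ↦ ∅` for other `χ`;
`Gs.card ≤ A'.card`, so `Nat.log 2 Gs.card ≤ Nat.log 2 A'.card` (`Nat.log_mono_right`); every gate is contained in `I` by `hin`.
If `2 * Inp.card * (log + 1) ≤ m * t` let `V'` be given by `kill` (`(m + 2) * B ≤ D`, as `2 * B ≤ 4 * p * (p ^ dep * (t * B))`). If
`Inp.card ≤ t` let `V' = V` (`ClV` is monotone in `D`; each gate has at most `Inp.card ≤ t` elements). In both cases, for `χ = bin c a b ∈ A' \ A`: some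
`l ∈ args c χ` has `tau (!c) (Pf l) ∈ V'`, or at most `t` of the `l ∈ args c χ` have `1 - tau (!c) (Pf l) ∉ V'`.
Let `gv (bin c a b) = tau (!c) 0` in the first case, and `tau (!c) (∏ l ∈ N, tau (!c) (Pf l))`, `N = (args c χ).filter (1 - tau (!c) (Pf l) ∉ V')`
in the second case (and `0` for other formulas); `tau (!c) (tau (!c) Q) = Q`. It is in `Dg (t * B)` (`prod_mem_Dg`). Let
`Pf' = evN A Pf gv`, `T = t * B`, `B' = p ^ dep * (t * B) ≥ t * B ≥ B`.
* degrees: `evN_deg`.
* `a ∈ A`: `Pf' a = Pf a`, and `Pf' b = Pf b` for all subformulas (`hA`), so idempotence and `Rl` are inherited: the equations of `Rl` are the same;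
  `Rl` at `bin`: `args c a ⊆ subs a ⊆ A` (`args_sub`), so `GO` is about the same functions (congruence for `f` on `L`), and `GO.mono` with `B ≤ B'`
  and `g ∈ V`, `g ∈ Dg B` implies `g ∈ V'`, since `B ≤ D - m * B`. (`Pf a * (1 - Pf a) ∈ Dg (2 * B)`, `2 * B ≤ D - m * B`.)
* `a ∈ A' \ A`: var, cst, mod: the value is a function with values in `{0, 1}`, so `Pf' a * (1 - Pf' a) = 0`, and `Rl` is `evN_var` etc.
  neg: `Pf' (neg a) = 1 - Pf' a`, idempotence from `a ∈ A'` (so this is an induction on the formula), `Rl` by `evN_neg`.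
  bin: `args c χ ⊆ A`, so `Pf' l = Pf l` for the arguments. `GO V' B' ..`: first case `tau (!c) (Pf' χ) = 0 ∈ V'`; second case `N`, `e = B`,
  `N.card * B ≤ t * B ≤ B'`, difference `0`. Idempotence: `GO.idem` for the `GO` statement with `B'` (`4 * p * B' ≤ D - m * B`), which gives
  `tau (!c) (Pf' χ) * (1 - tau (!c) (Pf' χ)) ∈ V'`, and `tau_mul_one_sub`.
-/

set_option autoImplicit false

namespace Pool.Agent.Work.MP_c04246_lc.R

open Finset

variable {U : Type} [Fintype U] [DecidableEq U] {p : ℕ} [Fact p.Prime]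

private lemma st_indF (f : (U → Bool) → Bool) :
    (indF f : (U → Bool) → ZMod p) * (1 - indF f) = 0 := by
  funext y
  simp only [Pi.mul_apply, Pi.sub_apply, Pi.one_apply, Pi.zero_apply, indF]
  cases f y <;> simp

private lemma st_mdA (A : ZMod p → Bool) (s : (U → Bool) → ZMod p) :
    mdA A s * (1 - mdA A s) = 0 := by
  funext y
  simp only [Pi.mul_apply, Pi.sub_apply, Pi.one_apply, Pi.zero_apply, mdA]
  cases A (s y) <;> simp

omit [Fintype U] [DecidableEq U] in
private lemma st_tt (c : Bool) (P : (U → Bool) → ZMod p) : tau c (tau c P) = P := by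
  cases c
  · show 1 - (1 - P) = P
    ring
  · rfl

omit [Fintype U] [DecidableEq U] in
private lemma st_congr {ι : Type} {V : Submodule (ZMod p) ((U → Bool) → ZMod p)} {B : ℕ}
    {f f' : ι → (U → Bool) → ZMod p} {L : Finset ι} {P : (U → Bool) → ZMod p}
    (h : GO V B f L P) (hf : ∀ i ∈ L, f i = f' i) : GO V B f' L P := by
  rcases h with ⟨hP, i, hi, h⟩ | ⟨N, e, hN, h1, h2, h3, h4⟩
  · exact Or.inl ⟨hP, i, hi, by rw [← hf i hi]; exact h⟩
  · refine Or.inr ⟨N, e, hN, h1, fun i hi => ?_, fun i hi hiN => ?_, ?_⟩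
    · rw [← hf i (hN hi)]; exact h2 i hi
    · rw [← hf i hi]; exact h3 i hi hiN
    · rw [← Finset.prod_congr rfl fun i hi => hf i (hN hi)]; exact h4

open Classical in
private noncomputable def gt : Fml p U → Finset (Bool × Fml p U)
  | .bin c a b => ({c} : Finset Bool) ×ˢ Fml.args c (.bin c a b)
  | .var _ => ∅
  | .cst _ => ∅
  | .neg _ => ∅
  | .mod _ _ _ => ∅

open Classical in
private noncomputable def gvf (V' : Submodule (ZMod p) ((U → Bool) → ZMod p))
    (Pf : Fml p U → (U → Bool) → ZMod p) : Fml p U → (U → Bool) → ZMod p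
  | .bin c a b => tau (!c) (if ∃ l ∈ Fml.args c (.bin c a b), tau (!c) (Pf l) ∈ V' then 0 else
      ∏ l ∈ (Fml.args c (.bin c a b)).filter (fun l => 1 - tau (!c) (Pf l) ∉ V'),
        tau (!c) (Pf l))
  | .var _ => 0
  | .cst _ => 0
  | .neg _ => 0
  | .mod _ _ _ => 0

open Classical in
private lemma st_kill {V : Submodule (ZMod p) ((U → Bool) → ZMod p)} {D B : ℕ}
    {A A' Inp : Finset (Fml p U)} {Pf : Fml p U → (U → Bool) → ZMod p} (hS : St V D B A Pf)
    (hin : ∀ c a b, Fml.bin c a b ∈ A' → Fml.bin c a b ∉ A →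
      Fml.args c (.bin c a b) ⊆ A ∧ Fml.args c (.bin c a b) ⊆ Inp)
    (t m : ℕ) (ht : 1 ≤ t)
    (hm : 2 * Inp.card * (Nat.log 2 A'.card + 1) ≤ m * t ∨ Inp.card ≤ t)
    (hD : (m + 2) * B ≤ D) :
    ∃ V' : Submodule (ZMod p) ((U → Bool) → ZMod p), ClV V' (D - m * B) ∧
      (1 : (U → Bool) → ZMod p) ∉ V' ∧ (∀ g ∈ V, g ∈ Dg (ZMod p) (D - m * B) → g ∈ V') ∧
      ∀ c a b, Fml.bin c a b ∈ A' → Fml.bin c a b ∉ A →
        (∃ l ∈ Fml.args c (.bin c a b), tau (!c) (Pf l) ∈ V') ∨
        ((Fml.args c (.bin c a b)).filter fun l => 1 - tau (!c) (Pf l) ∉ V').card ≤ t := by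
  rcases hm with hm | hm
  · obtain ⟨I, hI⟩ : ∃ I : Finset (Bool × Fml p U), I = univ ×ˢ (Inp.filter (· ∈ A)) := ⟨_, rfl⟩
    obtain ⟨Gs, hGs⟩ : ∃ Gs : Finset (Finset (Bool × Fml p U)),
      Gs = (A'.filter (· ∉ A)).image gt := ⟨_, rfl⟩
    have hIc : I.card ≤ 2 * Inp.card := by
      rw [hI, card_product, card_univ, Fintype.card_bool]
      exact Nat.mul_le_mul_left _ (card_filter_le _ _)
    have hGc : Nat.log 2 Gs.card ≤ Nat.log 2 A'.card := by
      apply Nat.log_mono_right
      rw [hGs]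
      exact card_image_le.trans (card_filter_le _ _)
    obtain ⟨V', h1, h2, h3, h4⟩ := kill hS.cl hS.one I (fun i => tau (!i.1) (Pf i.2))
      (δ := B) (by
        rintro ⟨c, l⟩ hi
        rw [hI, mem_product, mem_filter] at hi
        have h := hS.ev l hi.2.2
        refine ⟨tau_mem_Dg h.1, ?_⟩
        rw [tau_mul_one_sub]
        exact h.2.1) Gs (by
        intro g hg
        rw [hGs, mem_image] at hg
        obtain ⟨χ, hχ, rfl⟩ := hg
        rw [mem_filter] at hχ
        cases χ with
        | bin c a b =>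
          obtain ⟨h1, h2⟩ := hin c a b hχ.1 hχ.2
          rintro ⟨c', l⟩ hl
          simp only [gt, mem_product] at hl
          rw [hI, mem_product, mem_filter]
          exact ⟨mem_univ _, h2 hl.2, h1 hl.2⟩
        | var x => simp [gt]
        | cst x => simp [gt]
        | neg x => simp [gt]
        | mod i k f => simp [gt]) t m ht
      (by
        refine le_trans ?_ hm
        exact Nat.mul_le_mul hIc (Nat.add_le_add_right hGc 1)) hD
    refine ⟨V', h1, h2, h3, ?_⟩
    intro c a b hχ hχA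
    have hg : gt (Fml.bin c a b) ∈ Gs := by
      rw [hGs]
      exact mem_image_of_mem _ (mem_filter.2 ⟨hχ, hχA⟩)
    rcases h4 _ hg with ⟨⟨c', l⟩, hi, hl⟩ | h5
    · simp only [gt, mem_product, mem_singleton] at hi
      obtain ⟨rfl, hl2⟩ := hi
      exact Or.inl ⟨l, hl2, hl⟩
    · refine Or.inr (le_trans ?_ h5)
      refine card_le_card_of_injOn (fun l => (c, l)) ?_ ?_
      · intro l hl
        rw [mem_coe, mem_filter] at hl
        rw [mem_coe, mem_filter]
        refine ⟨?_, hl.2⟩
        simp only [gt, mem_product, mem_singleton]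
        exact ⟨trivial, hl.1⟩
      · intro l _ l' _ h
        exact (Prod.mk.inj h).2
  · refine ⟨V, ?_, hS.one, fun g hg _ => hg, ?_⟩
    · intro x y f g hf hfx hgy hxy
      exact hS.cl x y f g hf hfx hgy (hxy.trans (Nat.sub_le _ _))
    · intro c a b hχ hχA
      obtain ⟨-, h2⟩ := hin c a b hχ hχA
      exact Or.inr (((card_filter_le _ _).trans (card_le_card h2)).trans hm)

theorem step {V : Submodule (ZMod p) ((U → Bool) → ZMod p)} {D B : ℕ}
    {A A' Inp : Finset (Fml p U)} {Pf : Fml p U → (U → Bool) → ZMod p} (hS : St V D B A Pf)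
    (hB : 1 ≤ B) (hA : Cls A) (hA' : Cls A') (hAA : A ⊆ A')
    (hin : ∀ c a b, Fml.bin c a b ∈ A' → Fml.bin c a b ∉ A →
      Fml.args c (.bin c a b) ⊆ A ∧ Fml.args c (.bin c a b) ⊆ Inp)
    (dep : ℕ) (hdep : ∀ a ∈ A', Fml.mh a ≤ dep) (t m : ℕ) (ht : 1 ≤ t)
    (hm : 2 * Inp.card * (Nat.log 2 A'.card + 1) ≤ m * t ∨ Inp.card ≤ t)
    (hD : m * B + 4 * p * (p ^ dep * (t * B)) ≤ D) :
    ∃ (V' : Submodule (ZMod p) ((U → Bool) → ZMod p)) (Pf' : Fml p U → (U → Bool) → ZMod p),
      St V' (D - m * B) (p ^ dep * (t * B)) A' Pf' ∧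
      ∀ g ∈ V, g ∈ Dg (ZMod p) (D - m * B) → g ∈ V' := by
  classical
  have hp1 : 1 ≤ p := (Fact.out : p.Prime).one_lt.le
  have hpd : 1 ≤ p ^ dep := Nat.one_le_pow _ _ hp1
  obtain ⟨B', hB'⟩ : ∃ B', B' = p ^ dep * (t * B) := ⟨_, rfl⟩
  rw [← hB'] at hD ⊢
  have htB : B ≤ t * B := Nat.le_mul_of_pos_left _ ht
  have hTB' : t * B ≤ B' := by rw [hB']; exact Nat.le_mul_of_pos_left _ hpd
  have hBB' : B ≤ B' := htB.trans hTB'
  have h4B : 4 * B' ≤ 4 * p * B' := Nat.mul_le_mul_right _ (by omega)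
  obtain ⟨V', hcl, hone, hext, hk⟩ := st_kill hS hin t m ht hm (by
    have : (m + 2) * B = m * B + 2 * B := by ring
    omega)
  obtain ⟨gv, hgv⟩ : ∃ gv : Fml p U → (U → Bool) → ZMod p, gv = gvf V' Pf := ⟨_, rfl⟩
  obtain ⟨P, hP⟩ : ∃ P : Fml p U → (U → Bool) → ZMod p, P = evN A Pf gv := ⟨_, rfl⟩
  have hPA : ∀ a ∈ A, P a = Pf a := fun a ha => by rw [hP]; exact evN_mem Pf gv ha
  -- the value of a new gate
  have hgate : ∀ c a b, Fml.bin c a b ∈ A' → Fml.bin c a b ∉ A →
      gv (.bin c a b) ∈ Dg (ZMod p) (t * B) ∧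
      GO V' B' (fun l => tau (!c) (Pf l)) (Fml.args c (.bin c a b))
        (tau (!c) (gv (.bin c a b))) := by
    intro c a b hχ hχA
    obtain ⟨hin1, -⟩ := hin c a b hχ hχA
    have hdl : ∀ l ∈ Fml.args c (.bin c a b), tau (!c) (Pf l) ∈ Dg (ZMod p) B :=
      fun l hl => tau_mem_Dg (hS.ev l (hin1 hl)).1
    by_cases hex : ∃ l ∈ Fml.args c (.bin c a b), tau (!c) (Pf l) ∈ V'
    · have e1 : gv (.bin c a b) = tau (!c) 0 := by
        rw [hgv]
        simp only [gvf]
        rw [if_pos hex]
      rw [e1]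
      refine ⟨tau_mem_Dg (Submodule.zero_mem _), Or.inl ⟨?_, hex⟩⟩
      rw [st_tt]
      exact V'.zero_mem
    · have e1 : gv (.bin c a b) = tau (!c) (∏ l ∈ (Fml.args c (.bin c a b)).filter
          (fun l => 1 - tau (!c) (Pf l) ∉ V'), tau (!c) (Pf l)) := by
        rw [hgv]
        simp only [gvf]
        rw [if_neg hex]
      have hc : ((Fml.args c (.bin c a b)).filter
          fun l => 1 - tau (!c) (Pf l) ∉ V').card ≤ t := by
        rcases hk c a b hχ hχA with h | h
        · exact absurd h hex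
        · exact h
      rw [e1]
      constructor
      · apply tau_mem_Dg
        have h := prod_mem_Dg ((Fml.args c (.bin c a b)).filter
          fun l => 1 - tau (!c) (Pf l) ∉ V') (fun _ => B) (fun l => tau (!c) (Pf l))
          (fun l hl => hdl l (mem_filter.1 hl).1)
        rw [sum_const, smul_eq_mul] at h
        exact Dg_mono (Nat.mul_le_mul_right _ hc) h
      · refine Or.inr ⟨_, B, filter_subset _ _, (Nat.mul_le_mul_right _ hc).trans hTB',
          fun l hl => hdl l (mem_filter.1 hl).1, ?_, ?_⟩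
        · intro l hl hlN
          by_contra h
          exact hlN (mem_filter.2 ⟨hl, h⟩)
        · rw [st_tt, sub_self]
          exact V'.zero_mem
  have hdeg : ∀ a ∈ A', P a ∈ Dg (ZMod p) B' := by
    rw [hP, hB']
    exact evN_deg hA' (fun a ha => (hS.ev a ha).1) htB (hB.trans htB)
      (fun c a b h h' => (hgate c a b h h').1) hdep
  -- old formulas
  have hold : ∀ a ∈ A, P a * (1 - P a) ∈ V' ∧ Rl V' B' P a := by
    intro a ha
    obtain ⟨h2, h3, h4⟩ := hS.ev a ha
    have hsub : ∀ b ∈ Fml.subs a, P b = Pf b := fun b hb => hPA b (hA a ha b hb)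
    constructor
    · rw [hPA a ha]
      apply hext _ h3
      refine Dg_mono ?_ (mul_mem_Dg h2 (Submodule.sub_mem _ (one_mem_Dg B) h2))
      omega
    · cases a with
      | var x =>
        simp only [Rl] at h4 ⊢
        rw [hPA _ ha]; exact h4
      | cst x =>
        simp only [Rl] at h4 ⊢
        rw [hPA _ ha]; exact h4
      | neg b =>
        simp only [Rl] at h4 ⊢
        rw [hPA _ ha, hsub b (by simp only [Fml.subs]; exact mem_insert_of_mem (self_mem_subs b))]
        exact h4
      | mod i k f =>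
        simp only [Rl] at h4 ⊢
        rw [hPA _ ha, h4]
        congr 1
        refine sum_congr rfl fun j _ => (hsub _ ?_).symm
        simp only [Fml.subs]
        exact mem_insert_of_mem (mem_biUnion.2 ⟨j, mem_univ _, self_mem_subs _⟩)
      | bin c b b' =>
        simp only [Rl] at h4 ⊢
        rw [hPA _ ha]
        have hl : ∀ l ∈ Fml.args c (.bin c b b'), l ∈ A := fun l hl => hA _ ha l (args_sub c _ hl)
        have h5 : GO V' B' (fun l => tau (!c) (Pf l)) (Fml.args c (.bin c b b'))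
            (tau (!c) (Pf (.bin c b b'))) := by
          refine GO.mono h4 hBB' (fun l hl' => tau_mem_Dg (hS.ev l (hl l hl')).1) (tau_mem_Dg h2) ?_
          intro g hg hgB
          exact hext g hg (Dg_mono (by omega) hgB)
        refine st_congr h5 fun l hl' => ?_
        show tau (!c) (Pf l) = tau (!c) (P l)
        rw [hPA l (hl l hl')]
  have hall : ∀ a, a ∈ A' → P a * (1 - P a) ∈ V' ∧ Rl V' B' P a := by
    intro a
    induction a with
    | var x =>
      intro ha
      by_cases haA : Fml.var x ∈ A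
      · exact hold _ haA
      · have e : P (.var x) = indF (fun y => y x) := by rw [hP]; exact evN_var Pf gv haA
        refine ⟨?_, e⟩
        rw [e, st_indF]
        exact V'.zero_mem
    | cst x =>
      intro ha
      by_cases haA : Fml.cst x ∈ A
      · exact hold _ haA
      · have e : P (.cst x) = indF (fun _ => x) := by rw [hP]; exact evN_cst Pf gv haA
        refine ⟨?_, e⟩
        rw [e, st_indF]
        exact V'.zero_mem
    | neg b ih =>
      intro ha
      by_cases haA : Fml.neg b ∈ A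
      · exact hold _ haA
      · have e : P (.neg b) = 1 - P b := by rw [hP]; exact evN_neg Pf gv haA
        have hb := ih (hA' _ ha b (by
          simp only [Fml.subs]; exact mem_insert_of_mem (self_mem_subs b)))
        refine ⟨?_, e⟩
        rw [e]
        have e2 : (1 - P b) * (1 - (1 - P b)) = P b * (1 - P b) := by ring
        rw [e2]
        exact hb.1
    | mod i k f ih =>
      intro ha
      by_cases haA : Fml.mod i k f ∈ A
      · exact hold _ haA
      · have e : P (.mod i k f) = mdA (fun r => decide (r = i)) (∑ j, P (f j)) := by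
          rw [hP]; exact evN_mod Pf gv haA
        refine ⟨?_, e⟩
        rw [e, st_mdA]
        exact V'.zero_mem
    | bin c b b' _ _ =>
      intro ha
      by_cases haA : Fml.bin c b b' ∈ A
      · exact hold _ haA
      · have e : P (.bin c b b') = gv (.bin c b b') := by rw [hP]; exact evN_bin Pf gv haA
        obtain ⟨hin1, -⟩ := hin c b b' ha haA
        have h5 : GO V' B' (fun l => tau (!c) (P l)) (Fml.args c (.bin c b b'))
            (tau (!c) (P (.bin c b b'))) := by
          rw [e]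
          refine st_congr (hgate c b b' ha haA).2 fun l hl => ?_
          show tau (!c) (Pf l) = tau (!c) (P l)
          rw [hPA l (hin1 hl)]
        refine ⟨?_, h5⟩
        have h6 := GO.idem hcl h5 (tau_mem_Dg (hdeg _ ha)) (fun l hl => by
          refine ⟨tau_mem_Dg (hdeg l (hAA (hin1 hl))), ?_⟩
          show tau (!c) (P l) * (1 - tau (!c) (P l)) ∈ V'
          rw [tau_mul_one_sub]
          exact (hold l (hin1 hl)).1) (by omega)
        rw [tau_mul_one_sub] at h6
        exact h6
  refine ⟨V', P, ⟨hcl, hone, fun a ha => ⟨hdeg a ha, hall a ha⟩⟩, hext⟩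

end Pool.Agent.Work.MP_c04246_lc.R
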