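import Pool.Agent.Work.MP_c04246_lc.G.Ba

/-!
MODULE Syn (size S-M). Syntactic facts (definitions in G/Df.lean; `subs_trans`, `self_mem_subs` are in R/WC.lean).

Proof. All by induction on the formula.
* `args_sub`: induction.
* `blk_some_le`, `blk_le_some`: cases; only `bin` depends on `r`.
* `blk_subs`: induction on `a`; for `bin c a b` use `blk none a ≤ blk (some c) a + (1 or 0)`: precisely, if `a = bin c ..` then
  `blk none a = 1 + blk (some c) a`, otherwise `blk none a = blk (some c) a`; in both cases `≤ 1 + blk (some c) a ≤ blk none (bin c a b)`.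
* `blk_args`: for `χ` any formula and `ψ ∈ args c χ`: `blk none ψ ≤ blk (some c) χ` (induction on `χ`; if `χ = bin c' ..` with `c' ≠ c` then
  `args c χ = {χ}` and `blk (some c) χ = blk none χ`).
* `mh_subs`: induction. `mh_le_dpt`: induction, for all `r`.
* `cls_subsL`, `cls_inner`: `subs_trans`.
* `inner_sub`, `args_inputs`: definitions. `blk_inner`: an input is in `args c (bin c b b')` with `bin c b b' ∈ subs l`, `l ∈ pi`; `blk_args`,
  `blk_subs`.
-/

set_option autoImplicit false

namespace Pool.Agent.Work.MP_c04246_lc.R

open Finset

variable {U : Type} {p : ℕ}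

lemma args_sub (c : Bool) (a : Fml p U) : Fml.args c a ⊆ Fml.subs a := by
  classical
  induction a with
  | var x => simp [Fml.args, Fml.subs]
  | cst x => simp [Fml.args, Fml.subs]
  | neg a _ =>
    simp only [Fml.args, Fml.subs]
    exact singleton_subset_iff.2 (mem_insert_self _ _)
  | bin c' a b iha ihb =>
    simp only [Fml.args, Fml.subs]
    split_ifs with h
    · intro x hx
      rw [mem_union] at hx
      rw [mem_insert, mem_union]
      rcases hx with hx | hx
      · exact Or.inr (Or.inl (iha hx))
      · exact Or.inr (Or.inr (ihb hx))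
    · exact singleton_subset_iff.2 (mem_insert_self _ _)
  | mod i k f _ =>
    simp only [Fml.args, Fml.subs]
    exact singleton_subset_iff.2 (mem_insert_self _ _)

lemma args_bin (c : Bool) (a b : Fml p U) [DecidableEq (Fml p U)] :
    Fml.args c (.bin c a b) = Fml.args c a ∪ Fml.args c b := by
  ext x
  simp [Fml.args]

/-- a formula which is not a `bin c` is its only argument -/
lemma args_other (c : Bool) (a : Fml p U) (h : ∀ b b', a ≠ .bin c b b') : Fml.args c a = {a} := by
  cases a with
  | var x => rfl
  | cst x => rfl
  | neg a => rfl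
  | bin c' d e =>
    have hc : c' ≠ c := by
      rintro rfl
      exact h d e rfl
    simp [Fml.args, hc]
  | mod i k f => rfl

private lemma blk_le_none (r : Option Bool) (a : Fml p U) : Fml.blk r a ≤ Fml.blk none a := by
  cases a with
  | var x => exact le_refl _
  | cst x => exact le_refl _
  | neg a => exact le_refl _
  | bin c d e =>
    simp only [Fml.blk]
    split_ifs <;> simp_all
  | mod i k f => exact le_refl _

private lemma blk_none_le (c : Bool) (a : Fml p U) : Fml.blk none a ≤ 1 + Fml.blk (some c) a := by
  cases a with
  | var x => exact Nat.le_add_left _ _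
  | cst x => exact Nat.le_add_left _ _
  | neg a => exact Nat.le_add_left _ _
  | bin c' d e =>
    simp only [Fml.blk]
    split_ifs <;> simp_all
  | mod i k f => exact Nat.le_add_left _ _

lemma blk_subs {a b : Fml p U} (h : b ∈ Fml.subs a) : Fml.blk none b ≤ Fml.blk none a := by
  classical
  induction a with
  | var x =>
    simp only [Fml.subs, mem_singleton] at h
    subst h
    exact le_refl _
  | cst x =>
    simp only [Fml.subs, mem_singleton] at h
    subst h
    exact le_refl _
  | neg a ih =>
    simp only [Fml.subs, mem_insert] at h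
    rcases h with h | h
    · subst h
      exact le_refl _
    · exact ih h
  | bin c d e ihd ihe =>
    simp only [Fml.subs, mem_insert, mem_union] at h
    have h0 : Fml.blk none (Fml.bin c d e) = 1 + max (Fml.blk (some c) d) (Fml.blk (some c) e) := by
      simp [Fml.blk]
    rcases h with h | h | h
    · subst h
      exact le_refl _
    · rw [h0]
      have h1 := ihd h
      have h2 := blk_none_le c d
      have h3 := le_max_left (Fml.blk (some c) d) (Fml.blk (some c) e)
      omega
    · rw [h0]
      have h1 := ihe h
      have h2 := blk_none_le c e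
      have h3 := le_max_right (Fml.blk (some c) d) (Fml.blk (some c) e)
      omega
  | mod i k f ih =>
    simp only [Fml.subs, mem_insert, mem_biUnion, mem_univ, true_and] at h
    rcases h with h | ⟨j, hj⟩
    · subst h
      exact le_refl _
    · refine (ih j hj).trans ?_
      simp only [Fml.blk]
      exact le_sup (f := fun j => Fml.blk none (f j)) (mem_univ j)

private lemma blk_args' {c : Bool} {x : Fml p U} (a : Fml p U) (h : x ∈ Fml.args c a) :
    Fml.blk none x ≤ Fml.blk (some c) a := by
  classical
  induction a with
  | var y =>
    simp only [Fml.args, mem_singleton] at h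
    subst h
    exact le_refl _
  | cst y =>
    simp only [Fml.args, mem_singleton] at h
    subst h
    exact le_refl _
  | neg a ih =>
    simp only [Fml.args, mem_singleton] at h
    subst h
    exact le_refl _
  | bin c' d e ihd ihe =>
    by_cases hc : c' = c
    · subst hc
      rw [args_bin, mem_union] at h
      have h0 : Fml.blk (some c') (Fml.bin c' d e) =
          max (Fml.blk (some c') d) (Fml.blk (some c') e) := by
        simp [Fml.blk]
      rw [h0]
      rcases h with h | h
      · exact (ihd h).trans (le_max_left _ _)
      · exact (ihe h).trans (le_max_right _ _)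
    · rw [args_other] at h
      · rw [mem_singleton] at h
        subst h
        simp only [Fml.blk]
        have : ¬ (some c = some c') := by
          intro h'
          exact hc (Option.some.inj h').symm
        rw [if_neg this]
        simp
      · intro b b' hb
        injection hb with h1
        exact hc h1
  | mod i k f ih =>
    simp only [Fml.args, mem_singleton] at h
    subst h
    exact le_refl _

lemma blk_args {c : Bool} {a b x : Fml p U} (h : x ∈ Fml.args c (.bin c a b)) :
    Fml.blk none x + 1 ≤ Fml.blk none (.bin c a b) := by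
  classical
  have h0 : Fml.blk none (Fml.bin c a b) = 1 + max (Fml.blk (some c) a) (Fml.blk (some c) b) := by
    simp [Fml.blk]
  rw [args_bin, mem_union] at h
  rw [h0]
  rcases h with h | h
  · have h1 := blk_args' a h
    have h3 := le_max_left (Fml.blk (some c) a) (Fml.blk (some c) b)
    omega
  · have h1 := blk_args' b h
    have h3 := le_max_right (Fml.blk (some c) a) (Fml.blk (some c) b)
    omega

lemma mh_subs {a b : Fml p U} (h : b ∈ Fml.subs a) : Fml.mh b ≤ Fml.mh a := by
  classical
  induction a with
  | var x =>
    simp only [Fml.subs, mem_singleton] at h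
    subst h
    exact le_refl _
  | cst x =>
    simp only [Fml.subs, mem_singleton] at h
    subst h
    exact le_refl _
  | neg a ih =>
    simp only [Fml.subs, mem_insert] at h
    rcases h with h | h
    · subst h
      exact le_refl _
    · exact ih h
  | bin c d e ihd ihe =>
    simp only [Fml.subs, mem_insert, mem_union] at h
    rcases h with h | h | h
    · subst h
      exact le_refl _
    · exact (ihd h).trans (le_max_left _ _)
    · exact (ihe h).trans (le_max_right _ _)
  | mod i k f ih =>
    simp only [Fml.subs, mem_insert, mem_biUnion, mem_univ, true_and] at h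
    rcases h with h | ⟨j, hj⟩
    · subst h
      exact le_refl _
    · refine (ih j hj).trans ?_
      simp only [Fml.mh]
      exact (le_sup (f := fun j => Fml.mh (f j)) (mem_univ j)).trans (Nat.le_add_left _ _)

private lemma mh_le_dpt (a : Fml p U) : ∀ r, Fml.mh a ≤ Fml.dpt r a := by
  induction a with
  | var x =>
    intro r
    exact Nat.zero_le _
  | cst x =>
    intro r
    exact Nat.zero_le _
  | neg a ih =>
    intro r
    simp only [Fml.mh, Fml.dpt]
    exact (ih _).trans (Nat.le_add_left _ _)
  | bin c d e ihd ihe =>
    intro r
    simp only [Fml.mh, Fml.dpt]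
    exact (max_le_max (ihd _) (ihe _)).trans (Nat.le_add_left _ _)
  | mod i k f ih =>
    intro r
    simp only [Fml.mh, Fml.dpt]
    refine Nat.add_le_add_left (Finset.sup_le fun j _ => (ih j none).trans ?_) 1
    exact le_sup (f := fun j => Fml.dpt none (f j)) (mem_univ j)

lemma mh_le_depth (a : Fml p U) : Fml.mh a ≤ Fml.depth a := mh_le_dpt a none

lemma cls_subsL (pi : List (Fml p U)) : Cls (Fml.subsL pi) := by
  classical
  intro a ha b hb
  simp only [Fml.subsL, mem_biUnion] at ha ⊢
  obtain ⟨l, hl, hal⟩ := ha
  exact ⟨l, hl, subs_trans hb hal⟩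

lemma cls_inner (pi : List (Fml p U)) : Cls (Fml.inner pi) := by
  classical
  intro a ha b hb
  simp only [Fml.inner, mem_biUnion] at ha ⊢
  obtain ⟨l, hl, hal⟩ := ha
  exact ⟨l, hl, subs_trans hb hal⟩

lemma inner_sub (pi : List (Fml p U)) : Fml.inner pi ⊆ Fml.subsL pi := by
  classical
  intro a ha
  simp only [Fml.inner, mem_biUnion] at ha
  obtain ⟨x, hx, hax⟩ := ha
  simp only [Fml.inputs, mem_filter] at hx
  exact cls_subsL pi x hx.1 a hax

lemma inputs_sub (pi : List (Fml p U)) : Fml.inputs pi ⊆ Fml.inner pi := by
  classical
  intro a ha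
  simp only [Fml.inner, mem_biUnion]
  exact ⟨a, ha, self_mem_subs a⟩

lemma args_inputs {pi : List (Fml p U)} {c : Bool} {a b : Fml p U} (h : .bin c a b ∈ Fml.subsL pi) :
    Fml.args c (.bin c a b) ⊆ Fml.inputs pi := by
  classical
  intro x hx
  simp only [Fml.inputs, mem_filter]
  exact ⟨cls_subsL pi _ h x (args_sub c _ hx), c, a, b, h, hx⟩

lemma blk_inner {pi : List (Fml p U)} {n : ℕ} (h : ∀ l ∈ pi, Fml.blk none l ≤ n) {a : Fml p U}
    (ha : a ∈ Fml.inner pi) : Fml.blk none a + 1 ≤ n := by
  classical
  simp only [Fml.inner, mem_biUnion] at ha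
  obtain ⟨x, hx, hax⟩ := ha
  simp only [Fml.inputs, mem_filter] at hx
  obtain ⟨-, c, b, b', hb, hxb⟩ := hx
  simp only [Fml.subsL, mem_biUnion, List.mem_toFinset] at hb
  obtain ⟨l, hl, hbl⟩ := hb
  have h1 := blk_subs hax
  have h2 := blk_args hxb
  have h3 := blk_subs hbl
  have h4 := h l hl
  omega

end Pool.Agent.Work.MP_c04246_lc.R
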